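import Mathlib

set_option autoImplicit false

open MeasureTheory

namespace Pool.Agent.H302R4

/-- the circle group -/
abbrev T := AddCircle (1 : ℝ)

/-- Haar probability measure on the circle group -/
noncomputable abbrev hT : Measure T := AddCircle.haarAddCircle

/-- the basic character -/
noncomputable def e (x : T) : ℂ := (AddCircle.toCircle x : ℂ)

lemma e_zero : e 0 = 1 := by simp [e]
lemma e_add (x y : T) : e (x + y) = e x * e y := by simp [e, AddCircle.toCircle_add]
lemma norm_e (x : T) : ‖e x‖ = 1 := Circle.norm_coe _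
lemma e_neg (x : T) : e (-x) = (starRingEnd ℂ) (e x) := by
  unfold e
  rw [AddCircle.toCircle_neg, Circle.coe_inv_eq_conj]
lemma continuous_e : Continuous e :=
  continuous_subtype_val.comp AddCircle.continuous_toCircle
lemma measurable_e : Measurable e := continuous_e.measurable

lemma e_half : e ((1/2 : ℝ) : T) = -1 := by
  unfold e
  rw [AddCircle.toCircle_apply_mk, Circle.coe_exp]
  have : ((2 * Real.pi / 1 * (1/2) : ℝ) : ℂ) * Complex.I = Real.pi * Complex.I := by
    push_cast; ring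
  rw [this, Complex.exp_pi_mul_I]

lemma e_quarter : e ((1/4 : ℝ) : T) = Complex.I := by
  unfold e
  rw [AddCircle.toCircle_apply_mk, Circle.coe_exp]
  have : ((2 * Real.pi / 1 * (1/4) : ℝ) : ℂ) * Complex.I = Real.pi / 2 * Complex.I := by
    push_cast; ring
  rw [this, Complex.exp_pi_div_two_mul_I]

lemma re_sq_add_im_sq (x : T) : (e x).re ^ 2 + (e x).im ^ 2 = 1 := by
  have h := norm_e x
  have h2 : Complex.normSq (e x) = 1 := by
    rw [Complex.normSq_eq_norm_sq, h]; norm_num
  rw [Complex.normSq_apply] at h2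
  nlinarith

lemma abs_re_le (x : T) : |(e x).re| ≤ 1 := by
  have := Complex.abs_re_le_norm (e x)
  rwa [norm_e] at this

lemma abs_im_le (x : T) : |(e x).im| ≤ 1 := by
  have := Complex.abs_im_le_norm (e x)
  rwa [norm_e] at this

/-- `‖1 - e x‖ ^ 2 = 2 (1 - Re e x)` -/
lemma norm_sub_sq (x : T) : ‖1 - e x‖ ^ 2 = 2 * (1 - (e x).re) := by
  have h := re_sq_add_im_sq x
  rw [← Complex.normSq_eq_norm_sq, Complex.normSq_apply]
  simp
  nlinarith

lemma norm_sub_add_le (x y : T) : ‖1 - e (x + y)‖ ≤ ‖1 - e x‖ + ‖1 - e y‖ := by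
  have : 1 - e (x + y) = (1 - e x) + e x * (1 - e y) := by rw [e_add]; ring
  rw [this]
  refine (norm_add_le _ _).trans ?_
  rw [norm_mul, norm_e, one_mul]

lemma norm_sub_neg (x : T) : ‖1 - e (-x)‖ = ‖1 - e x‖ := by
  have : 1 - e (-x) = (starRingEnd ℂ) (1 - e x) := by simp [e_neg]
  rw [this]; exact RCLike.norm_conj _

/-- the shear lemma -/
lemma shear {G : Type*} [AddCommGroup G] [MeasurableSpace G] [MeasurableAdd₂ G]
    (μ : Measure G) [IsProbabilityMeasure μ] [μ.IsAddLeftInvariant]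
    (p : G →+ G) (hp : Measurable p) (f : G → G) (hf : Measurable f)
    (h1 : ∀ x g, f (x + p g) = f x) (h2 : ∀ x, f x = p (f x)) :
    MeasurePreserving (fun x => x + f x) μ μ := by
  have hmeas : Measurable (fun x => x + f x) := measurable_id.add hf
  refine ⟨hmeas, ?_⟩
  ext A hA
  rw [Measure.map_apply hmeas hA]
  set F : G → ENNReal := fun x => A.indicator 1 x with hF
  have hFm : Measurable F := measurable_one.indicator hA
  have hA' : ∀ g : G → G, Measurable g → μ (g ⁻¹' A) = ∫⁻ x, F (g x) ∂μ := by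
    intro g hg
    have : (fun x => F (g x)) = (g ⁻¹' A).indicator 1 := by
      ext x; rfl
    rw [this, lintegral_indicator_one (hg hA)]
  have e1 : ∫⁻ x, F (x + f x) ∂μ = ∫⁻ g, ∫⁻ x, F (x + p g + f x) ∂μ ∂μ := by
    have : ∀ g, ∫⁻ x, F (x + p g + f x) ∂μ = ∫⁻ x, F (x + f x) ∂μ := by
      intro g
      have := lintegral_add_right_eq_self (μ := μ) (fun x => F (x + f x)) (p g)
      rw [← this]
      congr 1; ext x; rw [h1]
    simp_rw [this]
    simp
  have e2 : ∫⁻ g, ∫⁻ x, F (x + p g + f x) ∂μ ∂μ = ∫⁻ x, ∫⁻ g, F (x + p g + f x) ∂μ ∂μ := by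
    apply lintegral_lintegral_swap
    apply Measurable.aemeasurable
    apply hFm.comp
    exact (measurable_snd.add (hp.comp measurable_fst)).add (hf.comp measurable_snd)
  have e3 : ∀ x, ∫⁻ g, F (x + p g + f x) ∂μ = ∫⁻ g, F (x + p g) ∂μ := by
    intro x
    have := lintegral_add_right_eq_self (μ := μ) (fun g => F (x + p g)) (f x)
    rw [← this]
    congr 1; ext g; rw [map_add, ← h2, add_assoc]
  have e4 : ∫⁻ x, ∫⁻ g, F (x + p g) ∂μ ∂μ = ∫⁻ g, ∫⁻ x, F (x + p g) ∂μ ∂μ := by
    apply lintegral_lintegral_swap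
    apply Measurable.aemeasurable
    apply hFm.comp
    exact (measurable_fst.add (hp.comp measurable_snd))
  have e5 : ∀ g, ∫⁻ x, F (x + p g) ∂μ = ∫⁻ x, F x ∂μ := by
    intro g
    exact lintegral_add_right_eq_self (μ := μ) F (p g)
  rw [hA' _ hmeas, e1, e2]
  simp_rw [e3]
  rw [e4]
  simp_rw [e5]
  have := hA' id measurable_id
  simp at this
  simp [this]

end Pool.Agent.H302R4
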