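import Pool.Agent.H302R4.Base

set_option autoImplicit false

namespace Pool.Agent.H302R4

/-- coefficients of a lazy signed unit vector -/
def cf : Fin 4 → ℤ := ![0, 0, 1, -1]

/-- value of a sparse row on a point -/
noncomputable def X {r0 : ℕ} {κ : Type} (ρ : Fin r0 → Fin 4 × κ) (θ : κ → T) : T :=
  ∑ q, cf (ρ q).1 • θ (ρ q).2

lemma e_sum {α : Type*} (s : Finset α) (f : α → T) : e (∑ i ∈ s, f i) = ∏ i ∈ s, e (f i) := by
  classical
  induction s using Finset.induction_on with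
  | empty => simp [e_zero]
  | insert a s ha ih => rw [Finset.sum_insert ha, Finset.prod_insert ha, e_add, ih]

lemma sum_e_X {r0 j : ℕ} (θ : Fin j → T) :
    ∑ ρ : Fin r0 → Fin 4 × Fin j, e (X ρ θ) =
      (((4 * j - ∑ t, ‖1 - e (θ t)‖ ^ 2 : ℝ) ^ r0 : ℝ) : ℂ) := by
  have h1 : ∀ ρ : Fin r0 → Fin 4 × Fin j, e (X ρ θ) = ∏ q, e (cf (ρ q).1 • θ (ρ q).2) := by
    intro ρ; unfold X; rw [e_sum]
  simp_rw [h1]
  have h2 : ∑ ρ : Fin r0 → Fin 4 × Fin j, ∏ q, e (cf (ρ q).1 • θ (ρ q).2) =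
      (∑ a : Fin 4 × Fin j, e (cf a.1 • θ a.2)) ^ r0 := by
    have := Finset.prod_univ_sum (fun _ : Fin r0 => (Finset.univ : Finset (Fin 4 × Fin j)))
      (fun _ a => e (cf a.1 • θ a.2))
    rw [Finset.prod_const, Finset.card_univ, Fintype.card_fin] at this
    rw [this, Fintype.piFinset_univ]
  rw [h2]
  have h3 : ∑ a : Fin 4 × Fin j, e (cf a.1 • θ a.2) =
      ((4 * j - ∑ t, ‖1 - e (θ t)‖ ^ 2 : ℝ) : ℂ) := by
    rw [Fintype.sum_prod_type_right]
    have h4 : ∀ t : Fin j, ∑ c : Fin 4, e (cf c • θ t) = ((4 - ‖1 - e (θ t)‖ ^ 2 : ℝ) : ℂ) := by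
      intro t
      rw [norm_sub_sq]
      simp only [Fin.sum_univ_four, cf]
      simp only [Matrix.cons_val_zero, Matrix.cons_val_one, Matrix.cons_val, zero_smul, one_smul,
        neg_smul, e_zero, e_neg]
      apply Complex.ext
      · simp; ring
      · simp
    simp_rw [h4]
    rw [← Complex.ofReal_sum, Finset.sum_sub_distrib]
    simp
    ring
  rw [h3]
  norm_cast

lemma exp_neg_le (u : ℝ) (h0 : 0 ≤ u) (h2 : u ≤ 2) :
    Real.exp (-(1/32) * u) ≤ 1 - (1/32) * u + 4 * (1/32)^2 := by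
  have h1 : |-(1/32) * u| ≤ 1 := by
    rw [abs_le]; constructor <;> linarith
  have h3 := (abs_le.mp (Real.abs_exp_sub_one_sub_id_le h1)).2
  have h4 : (-(1/32) * u)^2 ≤ 4 * (1/32)^2 := by nlinarith
  linarith

lemma rows_exist (r0 : ℕ) (κ : ℝ) (hκ : 0 ≤ κ) (hκ2 : κ ≤ 1) (hr : (1 - κ^2/4)^r0 ≤ 1/2)
    (j : ℕ) (hj : 0 < j) (L : Type) [Fintype L] (F : Finset T)
    (hF : (F.card:ℝ)^j * Real.exp (-(Fintype.card L : ℝ)/256) < 1) :
    ∃ R : L → Fin r0 → Fin 4 × Fin j, ∀ θ : Fin j → T, (∀ t, θ t ∈ F) →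
      κ * j ≤ ∑ t, ‖1 - e (θ t)‖ →
      (Fintype.card L : ℝ)/4 ≤ ∑ l, (1 - (e (X (R l) θ)).re) := by
  classical
  by_contra hcon
  push Not at hcon
  set m : ℝ := (Fintype.card L : ℝ) with hm
  set Rw := Fin r0 → Fin 4 × Fin j with hRw
  set N : ℝ := (Fintype.card Rw : ℝ) with hN
  have hNval : N = (4 * j : ℝ) ^ r0 := by
    rw [hN]
    show ((Fintype.card (Fin r0 → Fin 4 × Fin j) : ℕ) : ℝ) = _
    simp
  have hNpos : 0 < N := by rw [hNval]; positivity
  -- per theta estimate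
  have key : ∀ θ : Fin j → T, κ * j ≤ ∑ t, ‖1 - e (θ t)‖ →
      ∑ ρ : Rw, Real.exp (-(1/32) * (1 - (e (X ρ θ)).re)) ≤ N * Real.exp (-(1/64) + 4 * (1/32)^2) := by
    intro θ hθ
    have hcs : (∑ t, ‖1 - e (θ t)‖)^2 ≤ j * ∑ t, ‖1 - e (θ t)‖^2 := by
      have := sq_sum_le_card_mul_sum_sq (s := (Finset.univ : Finset (Fin j)))
        (f := fun t => ‖1 - e (θ t)‖)
      simpa using this
    have hj' : (0:ℝ) < j := by exact_mod_cast hj
    have hs2 : κ^2 * j ≤ ∑ t, ‖1 - e (θ t)‖^2 := by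
      have h1 : (κ * j)^2 ≤ (∑ t, ‖1 - e (θ t)‖)^2 :=
        pow_le_pow_left₀ (by positivity) hθ 2
      have h2 : (κ * j)^2 = j * (κ^2 * j) := by ring
      rw [h2] at h1
      exact le_of_mul_le_mul_left (h1.trans hcs) hj'
    have hq0 : 0 ≤ (4 * j - ∑ t, ‖1 - e (θ t)‖ ^ 2 : ℝ) := by
      have : ∑ t, ‖1 - e (θ t)‖ ^ 2 ≤ ∑ _t : Fin j, (4:ℝ) := by
        apply Finset.sum_le_sum
        intro t _
        rw [norm_sub_sq]
        have := (abs_le.mp (abs_re_le (θ t))).1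
        linarith
      simp at this
      linarith
    have hre : ∑ ρ : Rw, (e (X ρ θ)).re = (4 * j - ∑ t, ‖1 - e (θ t)‖ ^ 2 : ℝ) ^ r0 := by
      have := congrArg Complex.re (sum_e_X (r0 := r0) θ)
      rw [Complex.re_sum, Complex.ofReal_re] at this
      exact this
    have hre2 : ∑ ρ : Rw, (e (X ρ θ)).re ≤ N / 2 := by
      rw [hre]
      calc (4 * j - ∑ t, ‖1 - e (θ t)‖ ^ 2 : ℝ) ^ r0 ≤ (4 * j * (1 - κ^2/4)) ^ r0 := by
            apply pow_le_pow_left₀ hq0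
            nlinarith
        _ = N * (1 - κ^2/4)^r0 := by rw [mul_pow, hNval]
        _ ≤ N * (1/2) := mul_le_mul_of_nonneg_left hr hNpos.le
        _ = N / 2 := by ring
    calc ∑ ρ : Rw, Real.exp (-(1/32) * (1 - (e (X ρ θ)).re))
        ≤ ∑ ρ : Rw, (1 - (1/32) * (1 - (e (X ρ θ)).re) + 4 * (1/32)^2) := by
          apply Finset.sum_le_sum
          intro ρ _
          have := abs_le.mp (abs_re_le (X ρ θ))
          exact exp_neg_le _ (by linarith) (by linarith)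
      _ = N * (1 + 4 * (1/32)^2) - (1/32) * (N - ∑ ρ : Rw, (e (X ρ θ)).re) := by
          have h1 : ∑ ρ : Rw, (1 - (1/32) * (1 - (e (X ρ θ)).re) + 4 * (1/32)^2) =
              ∑ ρ : Rw, ((1 + 4 * (1/32)^2 - 1/32) + (1/32) * (e (X ρ θ)).re) :=
            Finset.sum_congr rfl (fun ρ _ => by ring)
          rw [h1, Finset.sum_add_distrib, ← Finset.mul_sum, Finset.sum_const, Finset.card_univ,
            nsmul_eq_mul]
          ring
      _ ≤ N * (1 - 1/64 + 4 * (1/32)^2) := by nlinarith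
      _ ≤ N * Real.exp (-(1/64) + 4 * (1/32)^2) := by
          apply mul_le_mul_of_nonneg_left _ hNpos.le
          have := Real.add_one_le_exp (-(1/64) + 4 * (1/32)^2 : ℝ)
          linarith
  have key2 : ∀ θ : Fin j → T, κ * j ≤ ∑ t, ‖1 - e (θ t)‖ →
      ∑ R : L → Rw, Real.exp ((1/32) * (m/4 - ∑ l, (1 - (e (X (R l) θ)).re))) ≤
        N ^ (Fintype.card L) * Real.exp (-m/256) := by
    intro θ hθ
    have h1 : ∀ R : L → Rw, Real.exp ((1/32) * (m/4 - ∑ l, (1 - (e (X (R l) θ)).re))) =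
        Real.exp (m/128) * ∏ l, Real.exp (-(1/32) * (1 - (e (X (R l) θ)).re)) := by
      intro R
      rw [← Real.exp_sum, ← Real.exp_add, ← Finset.mul_sum]
      congr 1; ring
    simp_rw [h1]
    rw [← Finset.mul_sum]
    have h2 := Finset.prod_univ_sum (fun _ : L => (Finset.univ : Finset Rw))
      (fun _ ρ => Real.exp (-(1/32) * (1 - (e (X ρ θ)).re)))
    rw [Finset.prod_const, Finset.card_univ, Fintype.piFinset_univ] at h2
    rw [← h2]
    have h3 := pow_le_pow_left₀ (by positivity) (key θ hθ) (Fintype.card L)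
    calc Real.exp (m/128) * (∑ ρ : Rw, Real.exp (-(1/32) * (1 - (e (X ρ θ)).re))) ^ (Fintype.card L)
        ≤ Real.exp (m/128) * (N * Real.exp (-(1/64) + 4 * (1/32)^2)) ^ (Fintype.card L) :=
          mul_le_mul_of_nonneg_left h3 (Real.exp_pos _).le
      _ = N ^ (Fintype.card L) * Real.exp (-m/256) := by
          rw [mul_pow, ← Real.exp_nat_mul, mul_left_comm, ← Real.exp_add]
          congr 2
          rw [← hm]
          ring
  -- count
  set TH : Finset (Fin j → T) :=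
    (Fintype.piFinset (fun _ : Fin j => F)).filter (fun θ => κ * j ≤ ∑ t, ‖1 - e (θ t)‖) with hTH
  have hcard : (TH.card : ℝ) ≤ (F.card : ℝ)^j := by
    have : TH.card ≤ (Fintype.piFinset (fun _ : Fin j => F)).card := Finset.card_filter_le _ _
    rw [Fintype.card_piFinset] at this
    simp at this
    exact_mod_cast this
  have hone : ∀ R : L → Rw, 1 ≤ ∑ θ ∈ TH,
      Real.exp ((1/32) * (m/4 - ∑ l, (1 - (e (X (R l) θ)).re))) := by
    intro R
    obtain ⟨θ, hθF, hθκ, hθ⟩ := hcon R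
    have hmem : θ ∈ TH := by
      rw [hTH, Finset.mem_filter, Fintype.mem_piFinset]
      exact ⟨hθF, hθκ⟩
    refine le_trans ?_ (Finset.single_le_sum (f := fun θ =>
      Real.exp ((1/32) * (m/4 - ∑ l, (1 - (e (X (R l) θ)).re))))
      (fun θ _ => (Real.exp_pos _).le) hmem)
    apply Real.one_le_exp
    have : 0 < m/4 - ∑ l, (1 - (e (X (R l) θ)).re) := by linarith
    positivity
  have hsum : (N : ℝ) ^ (Fintype.card L) ≤ ∑ R : L → Rw, ∑ θ ∈ TH,
      Real.exp ((1/32) * (m/4 - ∑ l, (1 - (e (X (R l) θ)).re))) := by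
    have h1 : ∑ _R : L → Rw, (1:ℝ) = N ^ (Fintype.card L) := by
      rw [Finset.sum_const, Finset.card_univ, Fintype.card_fun]
      simp [hN]
    rw [← h1]
    exact Finset.sum_le_sum (fun R _ => hone R)
  rw [Finset.sum_comm] at hsum
  have hsum2 : ∑ θ ∈ TH, ∑ R : L → Rw,
      Real.exp ((1/32) * (m/4 - ∑ l, (1 - (e (X (R l) θ)).re))) ≤
      ∑ _θ ∈ TH, N ^ (Fintype.card L) * Real.exp (-m/256) := by
    apply Finset.sum_le_sum
    intro θ hθ
    rw [hTH, Finset.mem_filter] at hθ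
    exact key2 θ hθ.2
  rw [Finset.sum_const, nsmul_eq_mul] at hsum2
  have hNL : 0 < N ^ (Fintype.card L) := pow_pos hNpos _
  have h5 : (TH.card : ℝ) * (N ^ (Fintype.card L) * Real.exp (-m/256)) ≤
      (F.card : ℝ)^j * (N ^ (Fintype.card L) * Real.exp (-m/256)) :=
    mul_le_mul_of_nonneg_right hcard (by positivity)
  have h6 : N ^ (Fintype.card L) ≤ N ^ (Fintype.card L) * ((F.card : ℝ)^j * Real.exp (-m/256)) := by
    calc N ^ (Fintype.card L) ≤ _ := hsum.trans (hsum2.trans h5)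
      _ = _ := by ring
  have h7 : N ^ (Fintype.card L) * ((F.card : ℝ)^j * Real.exp (-m/256)) < N ^ (Fintype.card L) * 1 :=
    mul_lt_mul_of_pos_left hF hNL
  linarith

end Pool.Agent.H302R4
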