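import Pool.Agent.H302R4.Prob
import Pool.Agent.H302R4.Rows

set_option autoImplicit false

open MeasureTheory ProbabilityTheory

namespace Pool.Agent.H302R4

lemma d_zero : ‖1 - e 0‖ = 0 := by simp [e_zero]

lemma d_sum {α : Type*} (s : Finset α) (f : α → T) :
    ‖1 - e (∑ i ∈ s, f i)‖ ≤ ∑ i ∈ s, ‖1 - e (f i)‖ := by
  classical
  induction s using Finset.induction_on with
  | empty => simp [e_zero]
  | insert a s ha ih =>
    rw [Finset.sum_insert ha, Finset.sum_insert ha]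
    exact (norm_sub_add_le _ _).trans (by linarith)

lemma norm_e_sub (x y : T) : ‖e x - e y‖ = ‖1 - e (x - y)‖ := by
  have : e x - e y = - (e y * (1 - e (x - y))) := by
    have h : e x = e y * e (x - y) := by rw [← e_add]; congr 1; abel
    rw [mul_sub, ← h]; ring
  rw [this, norm_neg, norm_mul, norm_e, one_mul]

lemma d_cf (a : Fin 4) (x : T) : ‖1 - e (cf a • x)‖ ≤ ‖1 - e x‖ := by
  fin_cases a
  · simp [cf, e_zero]
  · simp [cf, e_zero]
  · simp [cf]
  · simp [cf, norm_sub_neg]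

lemma X_sub {r0 : ℕ} {κ : Type} (ρ : Fin r0 → Fin 4 × κ) (θ θ' : κ → T) (ε : ℝ)
    (h : ∀ t, ‖e (θ t) - e (θ' t)‖ ≤ ε) : ‖e (X ρ θ) - e (X ρ θ')‖ ≤ r0 * ε := by
  rw [norm_e_sub]
  have : X ρ θ - X ρ θ' = ∑ q, cf (ρ q).1 • (θ (ρ q).2 - θ' (ρ q).2) := by
    unfold X
    rw [← Finset.sum_sub_distrib]
    exact Finset.sum_congr rfl (fun q _ => by rw [smul_sub])
  rw [this]
  refine (d_sum _ _).trans ?_
  calc ∑ q, ‖1 - e (cf (ρ q).1 • (θ (ρ q).2 - θ' (ρ q).2))‖ ≤ ∑ _q : Fin r0, ε := by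
        apply Finset.sum_le_sum
        intro q _
        refine (d_cf _ _).trans ?_
        rw [← norm_e_sub]; exact h _
    _ = r0 * ε := by simp

lemma conc' {Q L : Type} [Fintype L] (c : L → Q) (hc : Function.Injective c) (y : L → T → ℝ)
    (hy : ∀ i, Measurable (y i)) (hb : ∀ i u, |y i u| ≤ 1) (t a : ℝ) (ht0 : 0 ≤ t) (ht1 : t ≤ 1) :
    (nu Q).real {x | a ≤ ∑ l, y l (x (c l))} ≤
      Real.exp (-t * a + t * ∑ l, ∫ u, y l u ∂hT + t ^ 2 * Fintype.card L) := by
  have h1 := conc (Q := L) Finset.univ y hy hb t a ht0 ht1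
  have h2 := MeasureTheory.Measure.map_infinitePi_infinitePi_of_inj (P := fun _ : Q => hT) hc
  have hm : Measurable (fun (x : Q → T) (l : L) => x (c l)) := by fun_prop
  have hms : MeasurableSet {z : L → T | a ≤ ∑ l, y l (z l)} := by
    apply measurableSet_le measurable_const
    exact Finset.measurable_sum _ (fun i _ => (hy i).comp (measurable_pi_apply i))
  have h3 : (nu L).real {z : L → T | a ≤ ∑ l, y l (z l)} =
      (nu Q).real {x | a ≤ ∑ l, y l (x (c l))} := by
    unfold Measure.real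
    rw [nu, ← h2, Measure.map_apply hm hms]
    rfl
  rw [← h3]
  simpa using h1

/-- the finite set of large net points -/
noncomputable def TH (F : Finset T) (κ : ℝ) (j : ℕ) : Finset (Fin j → T) := by
  classical
  exact (Fintype.piFinset (fun _ : Fin j => F)).filter (fun θ => κ * j ≤ ∑ t, ‖1 - e (θ t)‖)

lemma mem_TH {F : Finset T} {κ : ℝ} {j : ℕ} {θ : Fin j → T} :
    θ ∈ TH F κ j ↔ (∀ t, θ t ∈ F) ∧ κ * j ≤ ∑ t, ‖1 - e (θ t)‖ := by
  classical
  unfold TH
  rw [Finset.mem_filter, Fintype.mem_piFinset]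

lemma card_TH (F : Finset T) (κ : ℝ) (j : ℕ) : ((TH F κ j).card : ℝ) ≤ (F.card : ℝ)^j := by
  classical
  have : (TH F κ j).card ≤ (Fintype.piFinset (fun _ : Fin j => F)).card :=
    Finset.card_filter_le _ _
  rw [Fintype.card_piFinset] at this
  simp at this
  exact_mod_cast this

/-- good blocks -/
def Good {Q L : Type} [Fintype L] {r0 j : ℕ} (c : L → Q) (R : L → Fin r0 → Fin 4 × Fin j)
    (F : Finset T) (κ : ℝ) (b : Q → T) : Prop :=
  (-(Fintype.card L : ℝ)/64 < ∑ l, (e (b (c l))).re) ∧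
  ∀ θ ∈ TH F κ j, ∑ l, (e (b (c l) + ms (b (c l)) (X (R l) θ))).re < -(Fintype.card L : ℝ)/32

lemma measurable_y (w : T) : Measurable (fun u : T => (e (u + ms u w)).re) :=
  Complex.measurable_re.comp (measurable_e.comp (measurable_id.add (measurable_ms w)))

lemma measurableSet_Good {Q L : Type} [Fintype L] {r0 j : ℕ} (c : L → Q)
    (R : L → Fin r0 → Fin 4 × Fin j) (F : Finset T) (κ : ℝ) :
    MeasurableSet {b : Q → T | Good c R F κ b} := by
  have h1 : MeasurableSet {b : Q → T | -(Fintype.card L : ℝ)/64 < ∑ l, (e (b (c l))).re} := by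
    apply measurableSet_lt measurable_const
    exact Finset.measurable_sum _ (fun i _ =>
      (Complex.measurable_re.comp measurable_e).comp (measurable_pi_apply _))
  have h2 : MeasurableSet {b : Q → T | ∀ θ ∈ TH F κ j,
      ∑ l, (e (b (c l) + ms (b (c l)) (X (R l) θ))).re < -(Fintype.card L : ℝ)/32} := by
    have : {b : Q → T | ∀ θ ∈ TH F κ j,
      ∑ l, (e (b (c l) + ms (b (c l)) (X (R l) θ))).re < -(Fintype.card L : ℝ)/32} =
      ⋂ θ ∈ TH F κ j, {b : Q → T |
        ∑ l, (e (b (c l) + ms (b (c l)) (X (R l) θ))).re < -(Fintype.card L : ℝ)/32} := by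
      ext b; simp
    rw [this]
    apply Finset.measurableSet_biInter
    intro θ _
    apply measurableSet_lt _ measurable_const
    exact Finset.measurable_sum _ (fun i _ =>
      (measurable_y (X (R i) θ)).comp (measurable_pi_apply (c i)))
  exact h1.inter h2

lemma prob_Good {Q L : Type} [Fintype L] {r0 j : ℕ} (c : L → Q) (hc : Function.Injective c)
    (R : L → Fin r0 → Fin 4 × Fin j) (F : Finset T) (κ : ℝ)
    (hR : ∀ θ : Fin j → T, (∀ t, θ t ∈ F) →
      κ * j ≤ ∑ t, ‖1 - e (θ t)‖ →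
      (Fintype.card L : ℝ)/4 ≤ ∑ l, (1 - (e (X (R l) θ)).re)) :
    (nu Q).real {b : Q → T | ¬ Good c R F κ b} ≤
      Real.exp (-(Fintype.card L : ℝ)/16384) +
      (F.card : ℝ)^j * Real.exp (-(Fintype.card L : ℝ)/4096) := by
  set m : ℝ := (Fintype.card L : ℝ) with hm
  have hsub : {b : Q → T | ¬ Good c R F κ b} ⊆
      {b : Q → T | m/64 ≤ ∑ l, -(e (b (c l))).re} ∪
      ⋃ θ ∈ TH F κ j, {b : Q → T |
        -m/32 ≤ ∑ l, (e (b (c l) + ms (b (c l)) (X (R l) θ))).re} := by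
    intro b hb
    simp only [Set.mem_setOf_eq, Good, not_and_or, not_lt, not_forall] at hb
    rcases hb with hb | ⟨θ, hθ, hb⟩
    · left
      show m/64 ≤ ∑ l, -(e (b (c l))).re
      rw [Finset.sum_neg_distrib]; rw [← hm] at hb; linarith
    · right
      simp only [Set.mem_iUnion]
      exact ⟨θ, hθ, hb⟩
  have h1 : (nu Q).real {b : Q → T | m/64 ≤ ∑ l, -(e (b (c l))).re} ≤
      Real.exp (-m/16384) := by
    have := conc' (Q := Q) c hc (fun _ u => -(e u).re)
      (fun _ => (Complex.measurable_re.comp measurable_e).neg)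
      (fun _ u => by rw [abs_neg]; exact abs_re_le u) (1/128) (m/64) (by norm_num) (by norm_num)
    refine this.trans (Real.exp_le_exp.mpr ?_)
    have h0 : ∫ u, -(e u).re ∂hT = 0 := by rw [integral_neg, int_re]; simp
    rw [h0, ← hm]
    simp only [Finset.sum_const_zero]
    linarith
  have h2 : ∀ θ ∈ TH F κ j, (nu Q).real {b : Q → T |
        -m/32 ≤ ∑ l, (e (b (c l) + ms (b (c l)) (X (R l) θ))).re} ≤ Real.exp (-m/4096) := by
    intro θ hθ
    rw [mem_TH] at hθ
    have hmR := hR θ hθ.1 hθ.2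
    have := conc' (Q := Q) c hc (fun l u => (e (u + ms u (X (R l) θ))).re)
      (fun l => measurable_y _)
      (fun l u => abs_re_le _) (1/64) (-m/32) (by norm_num) (by norm_num)
    refine this.trans (Real.exp_le_exp.mpr ?_)
    have h0 : ∑ l, ∫ u, (e (u + ms u (X (R l) θ))).re ∂hT ≤ -m/16 := by
      calc ∑ l, ∫ u, (e (u + ms u (X (R l) θ))).re ∂hT
          ≤ ∑ l, (- (1/4) * (1 - (e (X (R l) θ)).re)) :=
            Finset.sum_le_sum (fun l _ => int_y _)
        _ = -(1/4) * ∑ l, (1 - (e (X (R l) θ)).re) := by rw [Finset.mul_sum]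
        _ ≤ -m/16 := by linarith
    rw [← hm]
    linarith
  calc (nu Q).real {b : Q → T | ¬ Good c R F κ b}
      ≤ (nu Q).real ({b : Q → T | m/64 ≤ ∑ l, -(e (b (c l))).re} ∪
      ⋃ θ ∈ TH F κ j, {b : Q → T |
        -m/32 ≤ ∑ l, (e (b (c l) + ms (b (c l)) (X (R l) θ))).re}) :=
        measureReal_mono hsub
    _ ≤ (nu Q).real {b : Q → T | m/64 ≤ ∑ l, -(e (b (c l))).re} +
        (nu Q).real (⋃ θ ∈ TH F κ j, {b : Q → T |
        -m/32 ≤ ∑ l, (e (b (c l) + ms (b (c l)) (X (R l) θ))).re}) := measureReal_union_le _ _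
    _ ≤ Real.exp (-m/16384) + ∑ θ ∈ TH F κ j, (nu Q).real {b : Q → T |
        -m/32 ≤ ∑ l, (e (b (c l) + ms (b (c l)) (X (R l) θ))).re} :=
        add_le_add h1 (measureReal_biUnion_finset_le _ _)
    _ ≤ Real.exp (-m/16384) + ∑ _θ ∈ TH F κ j, Real.exp (-m/4096) := by
        have := Finset.sum_le_sum h2
        linarith
    _ ≤ _ := by
        rw [Finset.sum_const, nsmul_eq_mul]
        have := mul_le_mul_of_nonneg_right (card_TH F κ j) (Real.exp_pos (-m/4096)).le
        linarith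

/-- the deterministic step -/
lemma det_step {Q L : Type} [Fintype L] {r0 j : ℕ} (c : L → Q)
    (R : L → Fin r0 → Fin 4 × Fin j) (F : Finset T) (κ ε : ℝ)
    (hF : ∀ u : T, ∃ w ∈ F, ‖e u - e w‖ ≤ ε) (hε : r0 * ε ≤ 1/128)
    (b b' : Q → T) (hb : Good c R F κ b) (hb' : Good c R F κ b')
    (v : L → T) (θ : Fin j → T)
    (hv : ∑ l, ‖1 - e (v l)‖ ≤ (Fintype.card L : ℝ) / 128)
    (hbb : ∀ l, b' (c l) = b (c l) + (v l + ms (b (c l)) (X (R l) θ))) :
    ∑ t, ‖1 - e (θ t)‖ ≤ (κ + ε) * j := by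
  set m : ℝ := (Fintype.card L : ℝ) with hm
  choose w hwF hw using hF
  set θ' : Fin j → T := fun t => w (θ t) with hθ'
  have hd : ∀ t, ‖e (θ t) - e (θ' t)‖ ≤ ε := fun t => hw (θ t)
  by_contra hcon
  push Not at hcon
  have hlarge : κ * j ≤ ∑ t, ‖1 - e (θ' t)‖ := by
    have h1 : ∑ t, ‖1 - e (θ t)‖ ≤ ∑ t, (‖1 - e (θ' t)‖ + ε) := by
      apply Finset.sum_le_sum
      intro t _
      have : 1 - e (θ t) = (1 - e (θ' t)) + -(e (θ t) - e (θ' t)) := by ring
      rw [this]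
      refine (norm_add_le _ _).trans ?_
      rw [norm_neg]
      linarith [hd t]
    rw [Finset.sum_add_distrib] at h1
    simp at h1
    nlinarith
  have hmem : θ' ∈ TH F κ j := mem_TH.mpr ⟨fun t => hwF _, hlarge⟩
  have h2 := hb.2 θ' hmem
  have h3 := hb'.1
  have h4 : ∀ l, (e (b' (c l))).re ≤ (e (b (c l) + ms (b (c l)) (X (R l) θ'))).re +
      (‖1 - e (v l)‖ + r0 * ε) := by
    intro l
    have h5 : (e (b' (c l))).re - (e (b (c l) + ms (b (c l)) (X (R l) θ'))).re ≤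
        ‖e (b' (c l)) - e (b (c l) + ms (b (c l)) (X (R l) θ'))‖ := by
      rw [← Complex.sub_re]
      exact (le_abs_self _).trans (Complex.abs_re_le_norm _)
    have h6 : ‖e (b' (c l)) - e (b (c l) + ms (b (c l)) (X (R l) θ'))‖ ≤
        ‖1 - e (v l)‖ + r0 * ε := by
      rw [norm_e_sub, hbb]
      have : b (c l) + (v l + ms (b (c l)) (X (R l) θ)) - (b (c l) + ms (b (c l)) (X (R l) θ')) =
        v l + (ms (b (c l)) (X (R l) θ) - ms (b (c l)) (X (R l) θ')) := by abel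
      rw [this]
      refine (norm_sub_add_le _ _).trans ?_
      have h7 : ‖1 - e (ms (b (c l)) (X (R l) θ) - ms (b (c l)) (X (R l) θ'))‖ ≤ r0 * ε := by
        have h8 : ‖e (X (R l) θ) - e (X (R l) θ')‖ ≤ r0 * ε := X_sub _ _ _ _ hd
        unfold ms
        split_ifs
        · rw [← norm_e_sub]; exact h8
        · rw [sub_zero, d_zero]
          exact le_trans (norm_nonneg _) h8
      linarith
    linarith
  have h5 : ∑ l, (e (b' (c l))).re ≤
      ∑ l, (e (b (c l) + ms (b (c l)) (X (R l) θ'))).re + (∑ l, ‖1 - e (v l)‖ + m * (r0 * ε)) := by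
    calc ∑ l, (e (b' (c l))).re ≤ ∑ l, ((e (b (c l) + ms (b (c l)) (X (R l) θ'))).re +
        (‖1 - e (v l)‖ + r0 * ε)) := Finset.sum_le_sum (fun l _ => h4 l)
      _ = _ := by
        rw [Finset.sum_add_distrib, Finset.sum_add_distrib, Finset.sum_const, Finset.card_univ,
          nsmul_eq_mul]
  have hm0 : 0 ≤ m := by positivity
  have h6 : m * (r0 * ε) ≤ m * (1/128) := mul_le_mul_of_nonneg_left hε hm0
  rw [← hm] at h2 h3
  linarith

end Pool.Agent.H302R4
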