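import Pool.Agent.H302R4.Comb

set_option autoImplicit false

open MeasureTheory ProbabilityTheory

namespace Pool.Agent.H302R4

variable (p : Par)

abbrev PP : ℕ := 2 * p.K + 1
abbrev EE : Type := IX (PP p) → Fin 2

/-- the exponent attached to `ε` -/
def ex {P : ℕ} (n : IX P → ℕ) (ε : IX P → Fin 2) : ℕ := ∑ i, (ε i).val * n i

/-- the smallness statement -/
def Sm (lam : QQ (PP p) → T) (n : IX (PP p) → ℕ) (h : ℕ) (r : Fin (PP p)) : Prop :=
  ∀ i, ∑ t : Fin (h + 1), ‖1 - e (n i • lam (h, r, (t : ℕ)))‖ ≤ (1/1024) * (h + 1)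

lemma nsmul_ms (a : ℕ) (u w : T) : a • ms u w = ms u (a • w) := by
  unfold ms; split_ifs <;> simp

lemma nsmul_X {r0 : ℕ} {κ : Type} (a : ℕ) (ρ : Fin r0 → Fin 4 × κ) (θ : κ → T) :
    a • X ρ θ = X ρ (fun t => a • θ t) := by
  unfold X
  rw [Finset.smul_sum]
  exact Finset.sum_congr rfl (fun q _ => smul_comm _ _ _)

lemma d_val (c : Fin 2) (w : T) : ‖1 - e (c.val • w)‖ ≤ (c.val : ℝ) * ‖1 - e w‖ := by
  fin_cases c
  · simp [e_zero]
  · simp

lemma d_ex {P : ℕ} (n : IX P → ℕ) (ε : IX P → Fin 2) (u : T) :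
    ‖1 - e (ex n ε • u)‖ ≤ ∑ i, ((ε i).val : ℝ) * ‖1 - e (n i • u)‖ := by
  have : ex n ε • u = ∑ i, (ε i).val • (n i • u) := by
    unfold ex
    rw [Finset.sum_smul]
    exact Finset.sum_congr rfl (fun i _ => by rw [mul_smul])
  rw [this]
  refine (d_sum _ _).trans ?_
  exact Finset.sum_le_sum (fun i _ => d_val _ _)

/-- the supply is small -/
lemma supply (lam : QQ (PP p) → T) (n : IX (PP p) → ℕ) (h : ℕ) (r : Fin (PP p))
    (h0 : ∀ r', Sm p lam n h r') (h1 : ∀ r', r' < r → Sm p lam n (h + 1) r')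
    (ε : EE p) (hw : ∑ i, (ε i).val ≤ 4) :
    ∑ l, ‖1 - e (ex n ε • lam (cc r h l))‖ ≤ (Fintype.card (LB (PP p) r h) : ℝ) / 128 := by
  have hinner : ∀ i, ∑ l : LB (PP p) r h, ‖1 - e (n i • lam (cc r h l))‖ ≤
      (Fintype.card (LB (PP p) r h) : ℝ) * (2/1024) := by
    intro i
    rw [Fintype.sum_prod_type]
    have h2 : ∀ r' : {r' : Fin (PP p) // r' ≠ r},
        ∑ t : Fin (h + 1), ‖1 - e (n i • lam (cc r h (r', t)))‖ ≤ (2/1024) * (h + 1) := by
      rintro ⟨r', hr'⟩
      have hh : (0:ℝ) ≤ h := by positivity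
      by_cases hlt : r' < r
      · have h3 := h1 r' hlt i
        rw [Fin.sum_univ_castSucc] at h3
        have h4 : ∀ t : Fin (h + 1), cc r h (⟨r', hr'⟩, t) = (h + 1, r', (t : ℕ)) := by
          intro t; simp [cc, hlt]
        simp only [h4]
        have h5 := norm_nonneg (1 - e (n i • lam (h + 1, r', h + 1)))
        simp only [Fin.val_castSucc, Fin.val_last] at h3
        push_cast at h3
        linarith
      · have h3 := h0 r' i
        have h4 : ∀ t : Fin (h + 1), cc r h (⟨r', hr'⟩, t) = (h, r', (t : ℕ)) := by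
          intro t; simp [cc, hlt]
        simp only [h4]
        linarith
    refine (Finset.sum_le_sum (fun r' _ => h2 r')).trans ?_
    rw [Finset.sum_const, Finset.card_univ, nsmul_eq_mul, Fintype.card_prod, Fintype.card_fin]
    push_cast
    apply le_of_eq; ring
  calc ∑ l, ‖1 - e (ex n ε • lam (cc r h l))‖
      ≤ ∑ l : LB (PP p) r h, ∑ i, ((ε i).val : ℝ) * ‖1 - e (n i • lam (cc r h l))‖ :=
        Finset.sum_le_sum (fun l _ => d_ex _ _ _)
    _ = ∑ i, ((ε i).val : ℝ) * ∑ l : LB (PP p) r h, ‖1 - e (n i • lam (cc r h l))‖ := by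
        rw [Finset.sum_comm]
        exact Finset.sum_congr rfl (fun i _ => by rw [Finset.mul_sum])
    _ ≤ ∑ i, ((ε i).val : ℝ) * ((Fintype.card (LB (PP p) r h) : ℝ) * (2/1024)) :=
        Finset.sum_le_sum (fun i _ => mul_le_mul_of_nonneg_left (hinner i) (by positivity))
    _ = (∑ i, ((ε i).val : ℝ)) * ((Fintype.card (LB (PP p) r h) : ℝ) * (2/1024)) := by
        rw [Finset.sum_mul]
    _ ≤ 4 * ((Fintype.card (LB (PP p) r h) : ℝ) * (2/1024)) := by
        apply mul_le_mul_of_nonneg_right _ (by positivity)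
        exact_mod_cast hw
    _ = (Fintype.card (LB (PP p) r h) : ℝ) / 128 := by ring

/-- consequence of two good points -/
lemma key_step (x : XX (PP p) (EE p)) (n : IX (PP p) → ℕ) (ε : EE p) (r : Fin (PP p))
    (hres : resid ε = some r)
    (hA : CondA p (resid ε) (x (some ε)))
    (hA' : CondA p (resid ε) (((Tr p resid ε)^[ex n ε] x) (some ε)))
    (h : ℕ)
    (hs : ∑ l, ‖1 - e (ex n ε • x none (cc r h l))‖ ≤ (Fintype.card (LB (PP p) r h) : ℝ) / 128) :
    ∑ t : Fin (h + 2), ‖1 - e (ex n ε • x none (h + 1, r, (t : ℕ)))‖ ≤ (1/2048) * (h + 2) := by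
  rw [Tr_iter_some] at hA'
  rw [hres] at hA hA'
  have hb := hA h
  have hb' := hA' h
  set b := x (some ε) with hbdef
  have := det_step (cc r h) (p.R r h) p.F (1/4096) p.ε p.hnet p.hε b
    (b + ex n ε • (x none + disp p (some r) b (x none))) hb hb'
    (fun l => ex n ε • x none (cc r h l))
    (fun t => ex n ε • x none (h + 1, r, (t : ℕ))) hs ?_
  · have h2 : ((h + 2 : ℕ) : ℝ) = (h : ℝ) + 2 := by push_cast; ring
    rw [h2] at this
    have h3 := p.hε2
    have hh : (0:ℝ) ≤ (h : ℝ) + 2 := by positivity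
    nlinarith
  · intro l
    show b (cc r h l) + ex n ε • (x none (cc r h l) + disp p (some r) b (x none) (cc r h l)) = _
    congr 1
    rw [smul_add]
    congr 1
    have h1 : disp p (some r) b (x none) (cc r h l) =
        ms (b (cc r h l)) (X (p.R r h l) (fun t => x none (h + 1, r, (t : ℕ)))) := by
      show dispR p r b (x none) (CC r ⟨h, l⟩) = _
      unfold dispR
      rw [(CC_inj r).extend_apply]
      rfl
    rw [h1, nsmul_ms, nsmul_X]

/-- all frequencies are small -/
lemma chain (x : XX (PP p) (EE p)) (n : IX (PP p) → ℕ)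
    (hA : ∀ ε, CondA p (resid ε) (x (some ε)))
    (hA' : ∀ ε, CondA p (resid ε) (((Tr p resid ε)^[ex n ε] x) (some ε))) :
    ∀ h r, Sm p (x none) n h r := by
  intro h
  induction h with
  | zero =>
    intro r i
    have h1 := hA (sg i)
    have h2 := hA' (sg i)
    rw [Tr_iter_some] at h2
    rw [resid_sg] at h1 h2
    have h3 := h1 r
    have h4 := h2 r
    have h5 : ex n (sg i) = n i := sg_sum i n
    rw [h5] at h4
    have h6 : (x (some (sg i)) + n i • (x none + disp p none (x (some (sg i))) (x none))) (0, r, 0) =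
      x (some (sg i)) (0, r, 0) + n i • x none (0, r, 0) := by
      show x (some (sg i)) (0, r, 0) + n i • (x none (0, r, 0) + 0) = _
      rw [add_zero]
    rw [h6] at h4
    have h7 : n i • x none (0, r, 0) =
      (x (some (sg i)) (0, r, 0) + n i • x none (0, r, 0)) + -(x (some (sg i)) (0, r, 0)) := by abel
    have h8 := norm_sub_add_le (x (some (sg i)) (0, r, 0) + n i • x none (0, r, 0))
      (-(x (some (sg i)) (0, r, 0)))
    rw [← h7, norm_sub_neg] at h8
    simp only [Fin.val_eq_zero, Finset.sum_const]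
    norm_num
    linarith
  | succ h ih =>
    have hmain : ∀ k : ℕ, ∀ r : Fin (PP p), r.val = k → Sm p (x none) n (h + 1) r := by
      intro k
      induction k using Nat.strong_induction_on with
      | _ k ihk =>
        intro r hr i
        have h1 : ∀ r', r' < r → Sm p (x none) n (h + 1) r' :=
          fun r' hr' => ihk r'.val (by rw [← hr]; exact hr') r' rfl
        have hS := key_step p x n (Ss r) r (resid_Ss r) (hA _) (hA' _) h
          (supply p (x none) n h r ih h1 (Ss r) (weight_Ss r))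
        have hF := key_step p x n (fl r i) r (resid_fl r i) (hA _) (hA' _) h
          (supply p (x none) n h r ih h1 (fl r i) (weight_fl r i))
        have hid : ex n (fl r i) + (if i.1 = r then n i else 0) =
          ex n (Ss r) + (if i.1 = r then 0 else n i) := fl_ident r i n
        have hpt : ∀ u : T, ‖1 - e (n i • u)‖ ≤
            ‖1 - e (ex n (fl r i) • u)‖ + ‖1 - e (ex n (Ss r) • u)‖ := by
          intro u
          by_cases hir : i.1 = r
          · simp only [hir, if_true, add_zero] at hid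
            have h2 : n i • u = ex n (Ss r) • u + -(ex n (fl r i) • u) := by
              rw [← hid, add_smul]; abel
            rw [h2]
            have := norm_sub_add_le (ex n (Ss r) • u) (-(ex n (fl r i) • u))
            rw [norm_sub_neg] at this
            linarith
          · simp only [hir, if_false, add_zero] at hid
            have h2 : n i • u = ex n (fl r i) • u + -(ex n (Ss r) • u) := by
              rw [hid, add_smul]; abel
            rw [h2]
            have := norm_sub_add_le (ex n (fl r i) • u) (-(ex n (Ss r) • u))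
            rw [norm_sub_neg] at this
            linarith
        calc ∑ t : Fin (h + 1 + 1), ‖1 - e (n i • x none (h + 1, r, (t : ℕ)))‖
            ≤ ∑ t : Fin (h + 1 + 1), (‖1 - e (ex n (fl r i) • x none (h + 1, r, (t : ℕ)))‖ +
              ‖1 - e (ex n (Ss r) • x none (h + 1, r, (t : ℕ)))‖) :=
              Finset.sum_le_sum (fun t _ => hpt _)
          _ = ∑ t : Fin (h + 2), ‖1 - e (ex n (fl r i) • x none (h + 1, r, (t : ℕ)))‖ +
              ∑ t : Fin (h + 2), ‖1 - e (ex n (Ss r) • x none (h + 1, r, (t : ℕ)))‖ :=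
              Finset.sum_add_distrib
          _ ≤ (1/2048) * (h + 2) + (1/2048) * (h + 2) := add_le_add hF hS
          _ = (1/1024) * (((h + 1 : ℕ) : ℝ) + 1) := by push_cast; ring
    intro r
    exact hmain r.val r rfl

end Pool.Agent.H302R4
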