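import Pool.Agent.H302R4.Cond

set_option autoImplicit false

namespace Pool.Agent.H302R4

/-- index type of the variables `n` -/
abbrev IX (P : ℕ) : Type := Fin P × Fin 3

variable {P : ℕ}

/-- majority in the fibre `r` -/
def maj (ε : IX P → Fin 2) (r : Fin P) : Prop := 2 ≤ ∑ b : Fin 3, (ε (r, b)).val

open Classical in
/-- the residue attached to a vertex of the cube -/
noncomputable def resid (ε : IX P → Fin 2) : Option (Fin P) :=
  if h : ∃ r, maj ε r then some h.choose else none

lemma resid_some (ε : IX P → Fin 2) (r : Fin P) (h1 : maj ε r) (h2 : ∀ r', maj ε r' → r' = r) :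
    resid ε = some r := by
  have h : ∃ r, maj ε r := ⟨r, h1⟩
  unfold resid
  rw [dif_pos h]
  rw [h2 _ h.choose_spec]

lemma resid_none (ε : IX P → Fin 2) (h : ∀ r, ¬ maj ε r) : resid ε = none := by
  unfold resid
  rw [dif_neg]
  rintro ⟨r, hr⟩
  exact h r hr

/-- the indicator of the fibre `r` -/
def Ss (r : Fin P) : IX P → Fin 2 := fun i => if i.1 = r then 1 else 0

/-- flip at `i` -/
def fl (r : Fin P) (i : IX P) : IX P → Fin 2 :=
  fun i' => if i' = i then (if i.1 = r then 0 else 1) else Ss r i'

/-- singletons -/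
def sg (i : IX P) : IX P → Fin 2 := fun i' => if i' = i then 1 else 0

lemma Ss_val (r : Fin P) (i : IX P) : (Ss r i).val = if i.1 = r then 1 else 0 := by
  unfold Ss; split_ifs <;> rfl

lemma fl_val (r : Fin P) (i i' : IX P) : (fl r i i').val =
    if i' = i then (if i.1 = r then 0 else 1) else (if i'.1 = r then 1 else 0) := by
  unfold fl Ss; split_ifs <;> rfl

lemma sg_val (i i' : IX P) : (sg i i').val = if i' = i then 1 else 0 := by
  unfold sg; split_ifs <;> rfl

lemma resid_Ss (r : Fin P) : resid (Ss r) = some r := by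
  apply resid_some
  · unfold maj
    simp only [Ss_val]
    simp
  · intro r' hr'
    unfold maj at hr'
    simp only [Ss_val] at hr'
    by_contra hne
    simp [hne] at hr'

lemma resid_fl (r : Fin P) (i : IX P) : resid (fl r i) = some r := by
  apply resid_some
  · unfold maj
    simp only [fl_val, Fin.sum_univ_three]
    obtain ⟨i1, b1⟩ := i
    by_cases h : i1 = r
    · subst h
      fin_cases b1 <;> simp
    · have h' : ¬ r = i1 := fun h2 => h h2.symm
      simp [h']
  · intro r' hr'
    unfold maj at hr'
    simp only [fl_val, Fin.sum_univ_three] at hr'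
    by_contra hne
    obtain ⟨i1, b1⟩ := i
    simp only [hne, if_false] at hr'
    by_cases h : r' = i1
    · subst h
      fin_cases b1 <;> simp [hne] at hr'
    · simp [h] at hr'

lemma resid_sg (i : IX P) : resid (sg i) = none := by
  apply resid_none
  intro r hr
  unfold maj at hr
  simp only [sg_val, Fin.sum_univ_three] at hr
  obtain ⟨i1, b1⟩ := i
  by_cases h : r = i1
  · subst h
    fin_cases b1 <;> simp at hr
  · simp [h] at hr

lemma weight_Ss' (r : Fin P) : ∑ i, (Ss r i).val = 3 := by
  simp only [Ss_val]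
  rw [Fintype.sum_prod_type, Finset.sum_eq_single r]
  · simp
  · intro r' _ hr'
    simp [hr']
  · intro h
    exact absurd (Finset.mem_univ r) h

lemma weight_Ss (r : Fin P) : ∑ i, (Ss r i).val ≤ 4 := by
  rw [weight_Ss']
  norm_num

lemma weight_fl (r : Fin P) (i : IX P) : ∑ i', (fl r i i').val ≤ 4 := by
  have h1 : ∀ i', (fl r i i').val ≤ (Ss r i').val + (if i' = i then 1 else 0) := by
    intro i'
    rw [fl_val, Ss_val]
    split_ifs <;> omega
  refine (Finset.sum_le_sum (fun i' _ => h1 i')).trans ?_
  rw [Finset.sum_add_distrib]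
  rw [weight_Ss']
  simp

lemma fl_ident (r : Fin P) (i : IX P) (n : IX P → ℕ) :
    ∑ i', (fl r i i').val * n i' + (if i.1 = r then n i else 0) =
      ∑ i', (Ss r i').val * n i' + (if i.1 = r then 0 else n i) := by
  have h1 : (if i.1 = r then n i else 0) = ∑ i', (if i' = i then (if i.1 = r then n i else 0) else 0) := by
    simp
  have h2 : (if i.1 = r then 0 else n i) = ∑ i', (if i' = i then (if i.1 = r then 0 else n i) else 0) := by
    simp
  rw [h1, h2, ← Finset.sum_add_distrib, ← Finset.sum_add_distrib]
  apply Finset.sum_congr rfl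
  intro i' _
  rw [fl_val, Ss_val]
  by_cases h : i' = i
  · subst h
    by_cases h3 : i'.1 = r <;> simp [h3]
  · simp [h]

lemma sg_sum (i : IX P) (n : IX P → ℕ) : ∑ i', (sg i i').val * n i' = n i := by
  simp only [sg_val]
  simp

end Pool.Agent.H302R4
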