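import Pool.Agent.H302R4.Dyn

set_option autoImplicit false

open MeasureTheory ProbabilityTheory

namespace Pool.Agent.H302R4

variable (p : Par)

/-- the condition defining the set `A` -/
def CondA (o : Option (Fin (2 * p.K + 1))) (b : QQ (2 * p.K + 1) → T) : Prop :=
  match o with
  | some r => ∀ h, Good (cc r h) (p.R r h) p.F (1/4096) b
  | none => ∀ r' : Fin (2 * p.K + 1), ‖1 - e (b (0, r', 0))‖ ≤ 1/2048

lemma CondA_meas (o : Option (Fin (2 * p.K + 1))) :
    MeasurableSet {b : QQ (2 * p.K + 1) → T | CondA p o b} := by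
  cases o with
  | some r =>
    have : {b : QQ (2 * p.K + 1) → T | CondA p (some r) b} =
        ⋂ h, {b | Good (cc r h) (p.R r h) p.F (1/4096) b} := by
      ext b; simp [CondA]
    rw [this]
    exact MeasurableSet.iInter (fun h => measurableSet_Good _ _ _ _)
  | none =>
    have : {b : QQ (2 * p.K + 1) → T | CondA p none b} =
        ⋂ r' : Fin (2 * p.K + 1), {b | ‖1 - e (b (0, r', 0))‖ ≤ 1/2048} := by
      ext b; simp [CondA]
    rw [this]
    refine MeasurableSet.iInter (fun r' => ?_)
    apply measurableSet_le _ measurable_const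
    have h1 : Measurable (fun b : QQ (2 * p.K + 1) → T => e (b (0, r', 0))) :=
      measurable_e.comp (measurable_pi_apply _)
    exact (measurable_const.sub h1).norm

lemma CondA_pos (o : Option (Fin (2 * p.K + 1))) :
    0 < nu (QQ (2 * p.K + 1)) {b | CondA p o b} := by
  cases o with
  | some r =>
    set Bad : ℕ → Set (QQ (2 * p.K + 1) → T) :=
      fun h => {b | ¬ Good (cc r h) (p.R r h) p.F (1/4096) b} with hBad
    have h1 : ∀ h, nu (QQ (2 * p.K + 1)) (Bad h) ≤ ENNReal.ofReal (2 * (1/4)^(h+1)) := by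
      intro h
      have h2 := prob_Good (Q := QQ (2 * p.K + 1)) (cc r h) (cc_inj r h) (p.R r h) p.F (1/4096)
        (fun θ h3 h4 => p.hR r h θ h3 h4)
      have h3 := h2.trans (p.hprob r h)
      rw [← ENNReal.ofReal_toReal (measure_ne_top (nu (QQ (2 * p.K + 1))) (Bad h))]
      exact ENNReal.ofReal_le_ofReal h3
    have hs : Summable (fun h : ℕ => (2:ℝ) * (1/4)^(h+1)) := by
      have : (fun h : ℕ => (2:ℝ) * (1/4)^(h+1)) = fun h : ℕ => (1/2 : ℝ) * (1/4)^h := by
        ext h; ring
      rw [this]
      exact (summable_geometric_of_lt_one (by norm_num) (by norm_num)).mul_left _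
    have hts : ∑' h : ℕ, (2:ℝ) * (1/4)^(h+1) = 2/3 := by
      have : (fun h : ℕ => (2:ℝ) * (1/4)^(h+1)) = fun h : ℕ => (1/2 : ℝ) * (1/4)^h := by
        ext h; ring
      rw [this, tsum_mul_left, tsum_geometric_of_lt_one (by norm_num) (by norm_num)]
      norm_num
    have h2 : nu (QQ (2 * p.K + 1)) (⋃ h, Bad h) < 1 := by
      refine lt_of_le_of_lt (measure_iUnion_le _) ?_
      refine lt_of_le_of_lt (ENNReal.tsum_le_tsum h1) ?_
      rw [← ENNReal.ofReal_tsum_of_nonneg (fun h => by positivity) hs, hts]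
      rw [← ENNReal.ofReal_one]
      exact (ENNReal.ofReal_lt_ofReal_iff (by norm_num)).mpr (by norm_num)
    have h3 : {b | CondA p (some r) b} = (⋃ h, Bad h)ᶜ := by
      ext b; simp [CondA, hBad]
    rw [h3, prob_compl_eq_one_sub]
    · exact tsub_pos_of_lt h2
    · exact MeasurableSet.iUnion (fun h => (measurableSet_Good _ _ _ _).compl)
  | none =>
    set U : Set T := {u | ‖1 - e u‖ ≤ 1/2048} with hU
    have hUm : MeasurableSet U := by
      apply measurableSet_le _ measurable_const
      exact (measurable_const.sub measurable_e).norm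
    have hUpos : 0 < hT U := by
      have hopen : IsOpen {u : T | ‖1 - e u‖ < 1/2048} :=
        isOpen_lt ((continuous_const.sub continuous_e).norm) continuous_const
      have hne : {u : T | ‖1 - e u‖ < 1/2048}.Nonempty := ⟨0, by
        show ‖1 - e 0‖ < 1/2048
        rw [d_zero]; norm_num⟩
      refine lt_of_lt_of_le (hopen.measure_pos hT hne) (measure_mono ?_)
      intro u hu
      have hu' : ‖1 - e u‖ < 1/2048 := hu
      exact hu'.le
    set s : Finset (QQ (2 * p.K + 1)) := Finset.univ.image (fun r' => (0, r', 0)) with hs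
    have h1 : {b | CondA p none b} = Set.pi (s : Set (QQ (2 * p.K + 1))) (fun _ => U) := by
      ext b
      simp [CondA, hs, hU, Set.mem_pi]
    rw [h1, nu, Measure.infinitePi_pi _ (fun _ _ => hUm)]
    exact pos_iff_ne_zero.mpr (Finset.prod_ne_zero_iff.mpr (fun _ _ => hUpos.ne'))

variable {E : Type} [Fintype E] (res : E → Option (Fin (2 * p.K + 1)))

/-- the set `A` -/
def AA : Set (XX (2 * p.K + 1) E) := {x | ∀ ε, CondA p (res ε) (x (some ε))}

/-- its factors -/
def AF (i : Option E) : Set (QQ (2 * p.K + 1) → T) :=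
  match i with
  | none => Set.univ
  | some ε => {b | CondA p (res ε) b}

lemma AA_eq : AA p res = Set.pi Set.univ (AF p res) := by
  ext x
  simp only [AA, Set.mem_pi, Set.mem_univ, true_implies]
  constructor
  · intro h i
    cases i with
    | none => exact Set.mem_univ _
    | some ε => exact h ε
  · intro h ε
    exact h (some ε)

lemma AA_meas : MeasurableSet (AA p res) := by
  rw [AA_eq]
  apply MeasurableSet.univ_pi
  intro i
  cases i with
  | none => exact MeasurableSet.univ
  | some ε => exact CondA_meas p _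

lemma AA_pos : 0 < mu (2 * p.K + 1) E (AA p res) := by
  rw [AA_eq, mu, Measure.pi_pi]
  apply pos_iff_ne_zero.mpr
  apply Finset.prod_ne_zero_iff.mpr
  intro i _
  cases i with
  | none =>
    show nu (QQ (2 * p.K + 1)) Set.univ ≠ 0
    simp
  | some ε => exact (CondA_pos p _).ne'

/-- the smallness events for the frequencies are unlikely -/
lemma small_prob (a : ℕ) (ha : 0 < a) (r : Fin (2 * p.K + 1)) (h : ℕ) :
    mu (2 * p.K + 1) E {x : XX (2 * p.K + 1) E |
      ∑ t : Fin (h + 1), ‖1 - e (a • x none (h, r, (t : ℕ)))‖ ≤ (1/1024) * (h + 1)} ≤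
    ENNReal.ofReal (Real.exp (-(h + 1 : ℝ)/16)) := by
  set c : Fin (h + 1) → QQ (2 * p.K + 1) := fun t => (h, r, (t : ℕ)) with hc
  have hcinj : Function.Injective c := by
    intro t t' heq
    simp only [hc, Prod.mk.injEq, true_and] at heq
    exact Fin.ext heq
  have hm : Measurable (fun u : T => (e (a • u)).re) :=
    Complex.measurable_re.comp (measurable_e.comp (continuous_nsmul a).measurable)
  have h1 := conc' (Q := QQ (2 * p.K + 1)) c hcinj (fun _ u => (e (a • u)).re)
    (fun _ => hm) (fun _ u => abs_re_le _) (1/4) ((h + 1 : ℝ)/2) (by norm_num) (by norm_num)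
  simp only [int_nsmul a ha, Finset.sum_const_zero, Fintype.card_fin] at h1
  set Ev : Set (QQ (2 * p.K + 1) → T) := {x | (h + 1 : ℝ)/2 ≤ ∑ l, (e (a • x (c l))).re} with hEv
  have h2 : nu (QQ (2 * p.K + 1)) Ev ≤ ENNReal.ofReal (Real.exp (-(h + 1 : ℝ)/16)) := by
    rw [← ENNReal.ofReal_toReal (measure_ne_top (nu (QQ (2 * p.K + 1))) Ev)]
    apply ENNReal.ofReal_le_ofReal
    refine h1.trans (Real.exp_le_exp.mpr ?_)
    push_cast
    linarith
  have hEvm : MeasurableSet Ev := by
    apply measurableSet_le measurable_const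
    exact Finset.measurable_sum _ (fun i _ => hm.comp (measurable_pi_apply _))
  have hmp := measurePreserving_eval (fun _ : Option E => nu (QQ (2 * p.K + 1))) none
  have h3 : mu (2 * p.K + 1) E (Function.eval none ⁻¹' Ev) = nu (QQ (2 * p.K + 1)) Ev :=
    hmp.measure_preimage hEvm.nullMeasurableSet
  rw [← h3] at h2
  refine le_trans (measure_mono ?_) h2
  intro x hx
  show (h + 1 : ℝ)/2 ≤ ∑ l, (e (a • x none (c l))).re
  have hx' : ∑ t : Fin (h + 1), ‖1 - e (a • x none (c t))‖ ≤ (1/1024) * (h + 1) := hx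
  have h4 : ∀ u : T, 1 - ‖1 - e u‖ ≤ (e u).re := by
    intro u
    have := (le_abs_self _).trans (Complex.abs_re_le_norm (1 - e u))
    simp at this
    linarith
  have h5 : ∑ t : Fin (h + 1), (1 - ‖1 - e (a • x none (c t))‖) ≤
      ∑ l, (e (a • x none (c l))).re := Finset.sum_le_sum (fun t _ => h4 _)
  rw [Finset.sum_sub_distrib] at h5
  simp at h5
  have : (0:ℝ) ≤ h := by positivity
  linarith

end Pool.Agent.H302R4
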