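import Pool.Agent.H302R4.Params

set_option autoImplicit false

open MeasureTheory ProbabilityTheory

namespace Pool.Agent.H302R4

/-- coordinates -/
abbrev QQ (P : ℕ) : Type := ℕ × Fin P × ℕ

/-- the phase space, for a finite index type `E` of transformations -/
abbrev XX (P : ℕ) (E : Type) : Type := Option E → QQ P → T

/-- the invariant measure -/
noncomputable abbrev mu (P : ℕ) (E : Type) [Fintype E] : Measure (XX P E) :=
  Measure.pi (fun _ : Option E => nu (QQ P))

/-- the coordinate attached to a block index -/
def cc {P : ℕ} (r : Fin P) (h : ℕ) (l : LB P r h) : QQ P :=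
  (if l.1.1 < r then h + 1 else h, l.1.1, l.2)

/-- total coordinate map -/
def CC {P : ℕ} (r : Fin P) (hl : Σ h, LB P r h) : QQ P := cc r hl.1 hl.2

lemma cc_inj {P : ℕ} (r : Fin P) (h : ℕ) : Function.Injective (cc r h) := by
  rintro ⟨⟨a, ha⟩, t⟩ ⟨⟨a', ha'⟩, t'⟩ heq
  unfold cc at heq
  simp only [Prod.mk.injEq] at heq
  obtain ⟨_, h2, h3⟩ := heq
  subst h2
  have : t = t' := Fin.ext h3
  subst this
  rfl

lemma CC_inj {P : ℕ} (r : Fin P) : Function.Injective (CC r) := by
  rintro ⟨h, ⟨⟨a, ha⟩, t⟩⟩ ⟨h', ⟨⟨a', ha'⟩, t'⟩⟩ heq
  unfold CC cc at heq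
  simp only [Prod.mk.injEq] at heq
  obtain ⟨h1, h2, h3⟩ := heq
  subst h2
  have hh : h = h' := by
    split_ifs at h1 <;> omega
  subst hh
  have : t = t' := Fin.ext h3
  subst this
  rfl

instance nu_inv (Q : Type) : (nu Q).IsAddLeftInvariant := by
  refine ⟨fun g => ?_⟩
  have h := Measure.infinitePi_map_pi (μ := fun _ : Q => hT) (f := fun i (x : T) => g i + x)
    (fun i => measurable_const_add (g i))
  have h2 : (fun (x : Q → T) i => g i + x i) = fun x => g + x := rfl
  rw [h2] at h
  rw [h]
  congr 1
  ext1 i
  exact map_add_left_eq_self hT (g i)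

instance mu_inv (P : ℕ) (E : Type) [Fintype E] : (mu P E).IsAddLeftInvariant :=
  Measure.pi.isAddLeftInvariant _

variable (p : Par)

/-- displacement of the frequencies for residue `r` -/
noncomputable def dispR (r : Fin (2 * p.K + 1)) (b lam : QQ (2 * p.K + 1) → T) :
    QQ (2 * p.K + 1) → T :=
  Function.extend (CC r) (fun hl => ms (b (CC r hl))
    (X (p.R r hl.1 hl.2) (fun t => lam (hl.1 + 1, r, (t : ℕ))))) 0

/-- displacement, with optional residue -/
noncomputable def disp (o : Option (Fin (2 * p.K + 1))) (b lam : QQ (2 * p.K + 1) → T) :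
    QQ (2 * p.K + 1) → T :=
  match o with
  | none => 0
  | some r => dispR p r b lam

variable {E : Type} [Fintype E] [DecidableEq E] (res : E → Option (Fin (2 * p.K + 1)))

/-- first shear displacement -/
noncomputable def f1 (ε : E) (x : XX (2 * p.K + 1) E) : XX (2 * p.K + 1) E := fun i =>
  match i with
  | none => disp p (res ε) (x (some ε)) (x none)
  | some _ => 0

/-- second shear displacement -/
noncomputable def f2 (ε : E) (x : XX (2 * p.K + 1) E) : XX (2 * p.K + 1) E := fun i =>
  if i = some ε then x none else 0

/-- projection for the first shear -/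
noncomputable def p1 (o : Option (Fin (2 * p.K + 1))) :
    XX (2 * p.K + 1) E →+ XX (2 * p.K + 1) E where
  toFun x := fun i q => match i with
    | none => if some q.2.1 ≠ o then x none q else 0
    | some _ => 0
  map_zero' := by
    funext i q; cases i <;> simp
  map_add' := by
    intro x y
    funext i q
    cases i with
    | none =>
      by_cases h : some q.2.1 = o
      · simp [h]
      · simp [h]
    | some _ => simp

/-- projection for the second shear -/
noncomputable def p2 (ε : E) : XX (2 * p.K + 1) E →+ XX (2 * p.K + 1) E where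
  toFun x := fun i => if i = some ε then x i else 0
  map_zero' := by funext i; simp
  map_add' := by
    intro x y
    funext i
    by_cases h : i = some ε
    · simp [h]
    · simp [h]

lemma p1_meas (o : Option (Fin (2 * p.K + 1))) : Measurable (p1 p (E := E) o) := by
  refine measurable_pi_lambda _ (fun i => measurable_pi_lambda _ (fun q => ?_))
  cases i with
  | none =>
    show Measurable (fun x : XX (2 * p.K + 1) E => if some q.2.1 ≠ o then x none q else 0)
    split_ifs
    · fun_prop
    · exact measurable_const
  | some _ => exact measurable_const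

lemma p2_meas (ε : E) : Measurable (p2 p ε) := by
  refine measurable_pi_lambda _ (fun i => ?_)
  show Measurable (fun x : XX (2 * p.K + 1) E => if i = some ε then x i else 0)
  split_ifs
  · fun_prop
  · exact measurable_const

lemma f2_meas (ε : E) : Measurable (f2 p ε) := by
  refine measurable_pi_lambda _ (fun i => ?_)
  show Measurable (fun x : XX (2 * p.K + 1) E => if i = some ε then x none else 0)
  split_ifs
  · fun_prop
  · exact measurable_const

lemma X_meas {Ω : Type*} [MeasurableSpace Ω] {r0 : ℕ} {κ : Type} (ρ : Fin r0 → Fin 4 × κ)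
    (θ : Ω → κ → T) (hθ : ∀ t, Measurable (fun ω => θ ω t)) :
    Measurable (fun ω => X ρ (θ ω)) := by
  unfold X
  apply Finset.measurable_sum
  intro q _
  exact (continuous_zsmul _).measurable.comp (hθ _)

lemma f1_meas (ε : E) : Measurable (f1 p res ε) := by
  refine measurable_pi_lambda _ (fun i => ?_)
  cases i with
  | some _ => exact measurable_const
  | none =>
    show Measurable (fun x : XX (2 * p.K + 1) E => disp p (res ε) (x (some ε)) (x none))
    cases hres : res ε with
    | none => exact measurable_const
    | some r =>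
      refine measurable_pi_lambda _ (fun q => ?_)
      show Measurable (fun x : XX (2 * p.K + 1) E => dispR p r (x (some ε)) (x none) q)
      by_cases hq : ∃ hl, CC r hl = q
      · obtain ⟨hl, rfl⟩ := hq
        have : (fun x : XX (2 * p.K + 1) E => dispR p r (x (some ε)) (x none) (CC r hl)) =
            fun x => if 0 < (e (x (some ε) (CC r hl))).re then
              X (p.R r hl.1 hl.2) (fun t => x none (hl.1 + 1, r, (t : ℕ))) else 0 := by
          funext x
          unfold dispR
          rw [(CC_inj r).extend_apply]
          rfl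
        rw [this]
        apply Measurable.ite _ _ measurable_const
        · apply measurableSet_lt measurable_const
          exact (Complex.measurable_re.comp measurable_e).comp (by fun_prop)
        · apply X_meas
          intro t
          fun_prop
      · have : (fun x : XX (2 * p.K + 1) E => dispR p r (x (some ε)) (x none) q) = fun _ => 0 := by
          funext x
          unfold dispR
          rw [Function.extend_apply' _ _ _ hq]
          rfl
        rw [this]
        exact measurable_const

lemma disp_inv (o : Option (Fin (2 * p.K + 1))) (b lam g : QQ (2 * p.K + 1) → T)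
    (hg : ∀ q : QQ (2 * p.K + 1), some q.2.1 = o → g q = 0) :
    disp p o b (lam + g) = disp p o b lam := by
  cases o with
  | none => rfl
  | some r =>
    show dispR p r b (lam + g) = dispR p r b lam
    unfold dispR
    congr 1
    funext hl
    congr 2
    funext t
    rw [Pi.add_apply, hg _ rfl, add_zero]

lemma disp_supp (o : Option (Fin (2 * p.K + 1))) (b lam : QQ (2 * p.K + 1) → T)
    (q : QQ (2 * p.K + 1)) (hq : some q.2.1 = o) : disp p o b lam q = 0 := by
  cases o with
  | none => rfl
  | some r =>
    show dispR p r b lam q = 0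
    unfold dispR
    rw [Function.extend_apply']
    · rfl
    · rintro ⟨hl, hhl⟩
      have h1 : q.2.1 = hl.2.1.1 := by rw [← hhl]; rfl
      have h2 : q.2.1 = r := by simpa using hq
      exact hl.2.1.2 (h1 ▸ h2)

lemma f1_h1 (ε : E) (x g : XX (2 * p.K + 1) E) :
    f1 p res ε (x + p1 p (res ε) g) = f1 p res ε x := by
  funext i
  cases i with
  | some _ => rfl
  | none =>
    show disp p (res ε) ((x + p1 p (res ε) g) (some ε)) ((x + p1 p (res ε) g) none) =
      disp p (res ε) (x (some ε)) (x none)
    have h1 : (x + p1 p (res ε) g) (some ε) = x (some ε) := by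
      funext q
      show x (some ε) q + 0 = _
      rw [add_zero]
    rw [h1]
    show disp p (res ε) (x (some ε)) (x none + (p1 p (res ε) g) none) = _
    apply disp_inv
    intro q hq
    show (if some q.2.1 ≠ res ε then g none q else 0) = 0
    rw [if_neg (by simpa using hq)]

lemma f1_h2 (ε : E) (x : XX (2 * p.K + 1) E) :
    f1 p res ε x = p1 p (res ε) (f1 p res ε x) := by
  funext i q
  cases i with
  | some _ => rfl
  | none =>
    show disp p (res ε) (x (some ε)) (x none) q =
      (if some q.2.1 ≠ res ε then disp p (res ε) (x (some ε)) (x none) q else 0)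
    split_ifs with h
    · rfl
    · exact disp_supp p _ _ _ _ (by simpa using h)

lemma f2_h1 (ε : E) (x g : XX (2 * p.K + 1) E) :
    f2 p ε (x + p2 p ε g) = f2 p ε x := by
  funext i
  show (if i = some ε then (x + p2 p ε g) none else 0) = (if i = some ε then x none else 0)
  have : (x + p2 p ε g) none = x none := by
    show x none + (if (none : Option E) = some ε then g none else 0) = x none
    simp
  rw [this]

lemma f2_h2 (ε : E) (x : XX (2 * p.K + 1) E) :
    f2 p ε x = p2 p ε (f2 p ε x) := by
  funext i
  show (if i = some ε then x none else 0) =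
    (if i = some ε then (if i = some ε then x none else 0) else 0)
  split_ifs <;> rfl

/-- the transformations -/
noncomputable def S1 (ε : E) (x : XX (2 * p.K + 1) E) : XX (2 * p.K + 1) E := x + f1 p res ε x
noncomputable def S1' (ε : E) (x : XX (2 * p.K + 1) E) : XX (2 * p.K + 1) E := x + -f1 p res ε x
noncomputable def S2 (ε : E) (x : XX (2 * p.K + 1) E) : XX (2 * p.K + 1) E := x + f2 p ε x

noncomputable def Tr (ε : E) (x : XX (2 * p.K + 1) E) : XX (2 * p.K + 1) E :=
  S1' p res ε (S2 p ε (S1 p res ε x))

lemma Tr_mp (ε : E) : MeasurePreserving (Tr p res ε) (mu (2 * p.K + 1) E) (mu (2 * p.K + 1) E) := by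
  have h1 : MeasurePreserving (S1 p res ε) (mu (2 * p.K + 1) E) (mu (2 * p.K + 1) E) :=
    shear _ (p1 p (res ε)) (p1_meas p _) _ (f1_meas p res ε) (f1_h1 p res ε) (f1_h2 p res ε)
  have h2 : MeasurePreserving (S2 p ε) (mu (2 * p.K + 1) E) (mu (2 * p.K + 1) E) :=
    shear _ (p2 p ε) (p2_meas p _) _ (f2_meas p ε) (f2_h1 p ε) (f2_h2 p ε)
  have h3 : MeasurePreserving (S1' p res ε) (mu (2 * p.K + 1) E) (mu (2 * p.K + 1) E) := by
    apply shear _ (p1 p (res ε)) (p1_meas p _) (fun x => -f1 p res ε x) (f1_meas p res ε).neg
    · intro x g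
      show -f1 p res ε _ = -f1 p res ε _
      rw [f1_h1]
    · intro x
      show -f1 p res ε x = p1 p (res ε) (-f1 p res ε x)
      rw [map_neg, ← f1_h2]
  exact h3.comp (h2.comp h1)

lemma S1_S1' (ε : E) (x : XX (2 * p.K + 1) E) : S1 p res ε (S1' p res ε x) = x := by
  unfold S1 S1'
  have h : f1 p res ε (x + -f1 p res ε x) = f1 p res ε x := by
    have := f1_h1 p res ε x (-f1 p res ε x)
    rwa [map_neg, ← f1_h2] at this
  rw [h]; abel

lemma S1'_S1 (ε : E) (x : XX (2 * p.K + 1) E) : S1' p res ε (S1 p res ε x) = x := by
  unfold S1 S1'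
  have h : f1 p res ε (x + f1 p res ε x) = f1 p res ε x := by
    have := f1_h1 p res ε x (f1 p res ε x)
    rwa [← f1_h2] at this
  rw [h]; abel

lemma Tr_iter (ε : E) (n : ℕ) (x : XX (2 * p.K + 1) E) :
    (Tr p res ε)^[n] x = S1' p res ε ((S2 p ε)^[n] (S1 p res ε x)) := by
  induction n with
  | zero => simp [S1'_S1]
  | succ n ih =>
    rw [Function.iterate_succ_apply', ih]
    unfold Tr
    rw [S1_S1', ← Function.iterate_succ_apply' (S2 p ε)]

lemma S2_iter (ε : E) (n : ℕ) (x : XX (2 * p.K + 1) E) :
    (S2 p ε)^[n] x = x + n • f2 p ε x := by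
  induction n with
  | zero => simp
  | succ n ih =>
    rw [Function.iterate_succ_apply', ih]
    unfold S2
    have h : f2 p ε (x + n • f2 p ε x) = f2 p ε x := by
      have := f2_h1 p ε x (n • f2 p ε x)
      rwa [map_nsmul, ← f2_h2] at this
    rw [h, add_smul, one_smul, add_assoc]

lemma Tr_iter_some (ε : E) (n : ℕ) (x : XX (2 * p.K + 1) E) :
    ((Tr p res ε)^[n] x) (some ε) =
      x (some ε) + n • (x none + disp p (res ε) (x (some ε)) (x none)) := by
  rw [Tr_iter, S2_iter]
  funext q
  show (S1 p res ε x) (some ε) q + (n • f2 p ε (S1 p res ε x)) (some ε) q + -(0 : T) = _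
  have h1 : (S1 p res ε x) (some ε) q = x (some ε) q := by
    show x (some ε) q + 0 = _
    rw [add_zero]
  have h2 : (n • f2 p ε (S1 p res ε x)) (some ε) q =
      n • ((x none + disp p (res ε) (x (some ε)) (x none)) q) := by
    show n • ((if some ε = some ε then (S1 p res ε x) none else 0) q) = _
    rw [if_pos rfl]
    rfl
  rw [h1, h2]
  simp

end Pool.Agent.H302R4
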