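import Pool.Agent.H302R4.Block

set_option autoImplicit false

open MeasureTheory ProbabilityTheory

namespace Pool.Agent.H302R4

/-- block index type -/
abbrev LB (P : ℕ) (r : Fin P) (h : ℕ) : Type := {r' : Fin P // r' ≠ r} × Fin (h + 1)

lemma card_LB (K : ℕ) (r : Fin (2 * K + 1)) (h : ℕ) :
    (Fintype.card (LB (2 * K + 1) r h) : ℝ) = 2 * K * (h + 1) := by
  rw [Fintype.card_prod, Fintype.card_fin]
  have : Fintype.card {r' : Fin (2 * K + 1) // r' ≠ r} = 2 * K := by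
    rw [Fintype.card_subtype_compl]
    simp
  rw [this]
  push_cast; ring

/-- all parameters -/
structure Par where
  K : ℕ
  r0 : ℕ
  F : Finset T
  ε : ℝ
  hK : 1 ≤ K
  hε : r0 * ε ≤ 1/128
  hε2 : ε ≤ 1/4096
  hnet : ∀ u : T, ∃ w ∈ F, ‖e u - e w‖ ≤ ε
  R : ∀ (r : Fin (2 * K + 1)) (h : ℕ), LB (2 * K + 1) r h → Fin r0 → Fin 4 × Fin (h + 2)
  hR : ∀ (r : Fin (2 * K + 1)) (h : ℕ) (θ : Fin (h + 2) → T), (∀ t, θ t ∈ F) →
      (1/4096 : ℝ) * ((h + 2 : ℕ) : ℝ) ≤ ∑ t, ‖1 - e (θ t)‖ →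
      (Fintype.card (LB (2 * K + 1) r h) : ℝ)/4 ≤ ∑ l, (1 - (e (X (R r h l) θ)).re)
  hprob : ∀ (r : Fin (2 * K + 1)) (h : ℕ),
      Real.exp (-(Fintype.card (LB (2 * K + 1) r h) : ℝ)/16384) +
      (F.card : ℝ)^(h + 2) * Real.exp (-(Fintype.card (LB (2 * K + 1) r h) : ℝ)/4096) ≤
      2 * (1/4)^(h + 1)

lemma exists_net (ε : ℝ) (hε : 0 < ε) : ∃ F : Finset T, ∀ u : T, ∃ w ∈ F, ‖e u - e w‖ ≤ ε := by
  have hopen : ∀ w : T, IsOpen {u : T | ‖e u - e w‖ < ε} := by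
    intro w
    exact isOpen_lt ((continuous_e.sub continuous_const).norm) continuous_const
  have hcov : (Set.univ : Set T) ⊆ ⋃ w : T, {u : T | ‖e u - e w‖ < ε} := by
    intro u _
    simp only [Set.mem_iUnion]
    exact ⟨u, by show ‖e u - e u‖ < ε; simpa using hε⟩
  obtain ⟨F, hF⟩ := isCompact_univ.elim_finite_subcover _ hopen hcov
  refine ⟨F, fun u => ?_⟩
  have := hF (Set.mem_univ u)
  simp only [Set.mem_iUnion] at this
  obtain ⟨w, hw, hu⟩ := this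
  exact ⟨w, hw, le_of_lt hu⟩

lemma par_exists : Nonempty Par := by
  obtain ⟨r0, hr0⟩ := exists_pow_lt_of_lt_one (show (0:ℝ) < 1/2 by norm_num)
    (show (1 - (1/4096:ℝ)^2/4) < 1 by norm_num)
  set ε : ℝ := min (1/4096) (1/(128 * (r0 + 1))) with hεdef
  have hεpos : 0 < ε := by
    apply lt_min
    · norm_num
    · positivity
  have hε2 : ε ≤ 1/4096 := min_le_left _ _
  have hε : r0 * ε ≤ 1/128 := by
    have h1 : ε ≤ 1/(128 * (r0 + 1)) := min_le_right _ _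
    have h2 : (r0 : ℝ) * ε ≤ r0 * (1/(128 * (r0 + 1))) :=
      mul_le_mul_of_nonneg_left h1 (by positivity)
    refine h2.trans ?_
    rw [mul_one_div, div_le_div_iff₀ (by positivity) (by norm_num)]
    nlinarith [show (0:ℝ) ≤ r0 from by positivity]
  obtain ⟨F, hnet⟩ := exists_net ε hεpos
  have hFne : 1 ≤ F.card := by
    obtain ⟨w, hw, _⟩ := hnet 0
    exact Finset.card_pos.mpr ⟨w, hw⟩
  have hF1 : (1:ℝ) ≤ F.card := by exact_mod_cast hFne
  -- choose K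
  have hlim : Filter.Tendsto (fun K : ℕ => Real.exp (-(K:ℝ)/8192)) Filter.atTop (nhds 0) := by
    have h1 : Filter.Tendsto (fun K : ℕ => -(K:ℝ)/8192) Filter.atTop Filter.atBot := by
      have : (fun K : ℕ => -(K:ℝ)/8192) = fun K : ℕ => (-(1/8192:ℝ)) * (K:ℝ) := by
        ext K; ring
      rw [this]
      exact (Filter.tendsto_const_mul_atBot_of_neg (by norm_num)).mpr tendsto_natCast_atTop_atTop
    exact Real.tendsto_exp_atBot.comp h1
  have hev := hlim.eventually (gt_mem_nhds (show (0:ℝ) < 1/(4 * (F.card:ℝ)^2) by positivity))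
  obtain ⟨K, hK1, hK⟩ := ((Filter.eventually_ge_atTop 1).and hev).exists
  set q : ℝ := Real.exp (-(K:ℝ)/8192) with hq
  have hqpos : 0 < q := Real.exp_pos _
  have hFq : (F.card:ℝ)^2 * q ≤ 1/4 := by
    have h1 : (F.card:ℝ)^2 * q ≤ (F.card:ℝ)^2 * (1/(4 * (F.card:ℝ)^2)) :=
      mul_le_mul_of_nonneg_left hK.le (by positivity)
    refine h1.trans (le_of_eq ?_)
    field_simp
  have hq4 : q ≤ 1/4 := by
    have : q ≤ (F.card:ℝ)^2 * q := by
      have : (1:ℝ) ≤ (F.card:ℝ)^2 := one_le_pow₀ hF1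
      nlinarith
    linarith
  have hq1 : q ≤ 1 := by linarith
  -- exponentials
  have hexp : ∀ (D : ℝ) (n : ℕ), D = 16384 / (2 * (n:ℝ)) → 0 < n → ∀ h : ℕ,
      Real.exp (-(2 * K * (h + 1) : ℝ)/16384 * n) = (q ^ n) ^ (h + 1) := by
    intro D n _ _ h
    rw [hq, ← Real.exp_nat_mul, ← Real.exp_nat_mul]
    congr 1
    push_cast; ring
  have hFpow : ∀ h : ℕ, (F.card : ℝ)^(h + 2) ≤ ((F.card : ℝ)^2)^(h + 1) := by
    intro h
    rw [← pow_mul]
    exact pow_le_pow_right₀ hF1 (by omega)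
  have hmain : ∀ (n : ℕ), 0 < n → ∀ h : ℕ,
      (F.card : ℝ)^(h + 2) * Real.exp (-(2 * K * (h + 1) : ℝ)/16384 * n) ≤ (1/4)^(h + 1) := by
    intro n hn h
    rw [hexp _ n rfl hn h]
    have h1 : q ^ n ≤ q := by
      calc q ^ n ≤ q ^ 1 := pow_le_pow_of_le_one hqpos.le hq1 hn
        _ = q := pow_one q
    calc (F.card : ℝ)^(h + 2) * (q ^ n) ^ (h + 1)
        ≤ ((F.card : ℝ)^2)^(h + 1) * q ^ (h + 1) := by
          apply mul_le_mul (hFpow h) _ (by positivity) (by positivity)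
          exact pow_le_pow_left₀ (by positivity) h1 _
      _ = ((F.card : ℝ)^2 * q)^(h + 1) := by rw [mul_pow]
      _ ≤ (1/4)^(h + 1) := pow_le_pow_left₀ (by positivity) hFq _
  have hrows : ∀ (r : Fin (2 * K + 1)) (h : ℕ),
      ∃ R : LB (2 * K + 1) r h → Fin r0 → Fin 4 × Fin (h + 2), ∀ θ : Fin (h + 2) → T,
      (∀ t, θ t ∈ F) →
      (1/4096 : ℝ) * ((h + 2 : ℕ) : ℝ) ≤ ∑ t, ‖1 - e (θ t)‖ →
      (Fintype.card (LB (2 * K + 1) r h) : ℝ)/4 ≤ ∑ l, (1 - (e (X (R l) θ)).re) := by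
    intro r h
    apply rows_exist r0 (1/4096) (by norm_num) (by norm_num) hr0.le (h + 2) (by omega)
    rw [card_LB]
    have h1 := hmain 64 (by norm_num) h
    have h2 : -(2 * K * (h + 1) : ℝ)/256 = -(2 * K * (h + 1) : ℝ)/16384 * (64 : ℕ) := by
      push_cast; ring
    rw [h2]
    refine lt_of_le_of_lt h1 ?_
    exact pow_lt_one₀ (by norm_num) (by norm_num) (by omega)
  choose R hR using hrows
  refine ⟨⟨K, r0, F, ε, hK1, hε, hε2, hnet, R, hR, ?_⟩⟩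
  intro r h
  rw [card_LB]
  have h1 := hmain 4 (by norm_num) h
  have h2 : -(2 * K * (h + 1) : ℝ)/4096 = -(2 * K * (h + 1) : ℝ)/16384 * (4 : ℕ) := by
    push_cast; ring
  rw [← h2] at h1
  have h3 : Real.exp (-(2 * K * (h + 1) : ℝ)/16384) ≤ (1/4)^(h + 1) := by
    have h4 : -(2 * K * (h + 1) : ℝ)/16384 = ((h + 1 : ℕ) : ℝ) * (-(K:ℝ)/8192) := by
      push_cast; ring
    rw [h4, Real.exp_nat_mul, ← hq]
    exact pow_le_pow_left₀ hqpos.le hq4 _
  linarith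

end Pool.Agent.H302R4
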