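import Pool.Agent.H302R4.Base

set_option autoImplicit false

open MeasureTheory ProbabilityTheory

namespace Pool.Agent.H302R4

/-- infinite power of the Haar probability measure of the circle group -/
noncomputable abbrev nu (Q : Type) : Measure (Q → T) := Measure.infinitePi (fun _ : Q => hT)

lemma mgf_one (y : T → ℝ) (hy : Measurable y) (hb : ∀ u, |y u| ≤ 1) (t : ℝ) (ht0 : 0 ≤ t)
    (ht1 : t ≤ 1) :
    ∫ u, Real.exp (t * y u) ∂hT ≤ Real.exp (t * ∫ u, y u ∂hT + t ^ 2) := by
  have hint : Integrable y hT := by
    refine Integrable.of_bound hy.aestronglyMeasurable 1 ?_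
    exact Filter.Eventually.of_forall (fun u => by simpa using hb u)
  have hle : ∀ u, Real.exp (t * y u) ≤ 1 + t * y u + t ^ 2 := by
    intro u
    have h1 : |t * y u| ≤ 1 := by
      rw [abs_mul, abs_of_nonneg ht0]
      nlinarith [hb u, abs_nonneg (y u)]
    have h2 := Real.abs_exp_sub_one_sub_id_le h1
    have h3 := (abs_le.mp h2).2
    have h4 : (t * y u) ^ 2 ≤ t ^ 2 := by
      have : y u ^ 2 ≤ 1 := by
        have := hb u
        rw [← sq_abs]; nlinarith [abs_nonneg (y u)]
      nlinarith [sq_nonneg t]
    linarith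
  have hint2 : Integrable (fun u => Real.exp (t * y u)) hT := by
    refine Integrable.of_bound (by fun_prop) (Real.exp 1) ?_
    refine Filter.Eventually.of_forall (fun u => ?_)
    rw [Real.norm_eq_abs, abs_of_pos (Real.exp_pos _)]
    apply Real.exp_le_exp.mpr
    have h1 : |t * y u| ≤ 1 := by
      rw [abs_mul, abs_of_nonneg ht0]
      nlinarith [hb u, abs_nonneg (y u)]
    exact (abs_le.mp h1).2
  calc ∫ u, Real.exp (t * y u) ∂hT ≤ ∫ u, (1 + t * y u + t ^ 2) ∂hT := by
        apply integral_mono hint2 _ hle
        exact ((integrable_const _).add (hint.const_mul t)).add (integrable_const _)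
    _ = 1 + t * ∫ u, y u ∂hT + t ^ 2 := by
        have hA : Integrable (fun u => 1 + t * y u) hT :=
          (integrable_const _).add (hint.const_mul t)
        rw [integral_add hA (integrable_const _),
          integral_add (integrable_const _) (hint.const_mul t), integral_const_mul]
        simp
    _ ≤ Real.exp (t * ∫ u, y u ∂hT + t ^ 2) := by
        have := Real.add_one_le_exp (t * ∫ u, y u ∂hT + t ^ 2)
        linarith

lemma conc {Q : Type} (S : Finset Q) (y : Q → T → ℝ) (hy : ∀ i, Measurable (y i))
    (hb : ∀ i u, |y i u| ≤ 1) (t c : ℝ) (ht0 : 0 ≤ t) (ht1 : t ≤ 1) :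
    (nu Q).real {x | c ≤ ∑ i ∈ S, y i (x i)} ≤
      Real.exp (-t * c + t * ∑ i ∈ S, ∫ u, y i u ∂hT + t ^ 2 * S.card) := by
  have hind : iIndepFun (fun i (x : Q → T) => y i (x i)) (nu Q) :=
    iIndepFun_infinitePi (P := fun _ : Q => hT) (X := y) hy
  have hm : ∀ i, Measurable (fun (x : Q → T) => y i (x i)) :=
    fun i => (hy i).comp (measurable_pi_apply i)
  have h1 := hind.mgf_sum (t := t) hm S
  have hsum : (∑ i ∈ S, (fun (x : Q → T) => y i (x i))) = fun x => ∑ i ∈ S, y i (x i) := by
    ext x; simp
  rw [hsum] at h1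
  have hint : Integrable (fun x : Q → T => Real.exp (t * ∑ i ∈ S, y i (x i))) (nu Q) := by
    have hmm : Measurable (fun x : Q → T => ∑ i ∈ S, y i (x i)) :=
      Finset.measurable_sum _ (fun i _ => hm i)
    refine Integrable.of_bound ((hmm.const_mul t).exp.aestronglyMeasurable)
      (Real.exp (t * S.card)) ?_
    refine Filter.Eventually.of_forall (fun x => ?_)
    rw [Real.norm_eq_abs, abs_of_pos (Real.exp_pos _)]
    apply Real.exp_le_exp.mpr
    apply mul_le_mul_of_nonneg_left _ ht0
    calc ∑ i ∈ S, y i (x i) ≤ ∑ i ∈ S, (1 : ℝ) :=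
          Finset.sum_le_sum (fun i _ => (abs_le.mp (hb i _)).2)
      _ = S.card := by simp
  have h2 := measure_ge_le_exp_mul_mgf (μ := nu Q) (X := fun x => ∑ i ∈ S, y i (x i)) c ht0 hint
  refine h2.trans ?_
  rw [h1]
  have h3 : ∀ i ∈ S, mgf (fun (x : Q → T) => y i (x i)) (nu Q) t ≤
      Real.exp (t * ∫ u, y i u ∂hT + t ^ 2) := by
    intro i _
    refine le_trans (le_of_eq ?_) (mgf_one (y i) (hy i) (hb i) t ht0 ht1)
    unfold mgf
    have := (measurePreserving_eval_infinitePi (fun _ : Q => hT) i)
    have h4 := this.map_eq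
    have h5 : AEStronglyMeasurable (fun u => Real.exp (t * y i u))
        (Measure.map (Function.eval i) (nu Q)) :=
      (((hy i).const_mul t).exp).aestronglyMeasurable
    have h6 := integral_map this.measurable.aemeasurable h5
    rw [h4] at h6
    rw [h6]
  have h4 : ∏ i ∈ S, mgf (fun (x : Q → T) => y i (x i)) (nu Q) t ≤
      ∏ i ∈ S, Real.exp (t * ∫ u, y i u ∂hT + t ^ 2) :=
    Finset.prod_le_prod (fun i _ => mgf_nonneg) h3
  rw [← Real.exp_sum] at h4
  calc Real.exp (-t * c) * ∏ i ∈ S, mgf (fun (x : Q → T) => y i (x i)) (nu Q) t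
      ≤ Real.exp (-t * c) * Real.exp (∑ i ∈ S, (t * ∫ u, y i u ∂hT + t ^ 2)) :=
        mul_le_mul_of_nonneg_left h4 (Real.exp_pos _).le
    _ = _ := by
        rw [← Real.exp_add]
        congr 1
        rw [Finset.sum_add_distrib, Finset.mul_sum, Finset.sum_const, nsmul_eq_mul]
        ring

/-! ### integrals on the circle group -/

lemma int_shift (F : T → ℝ) (g : T) : ∫ u, F (u + g) ∂hT = ∫ u, F u ∂hT :=
  integral_add_right_eq_self F g

lemma int_neg (F : T → ℝ) : ∫ u, F (-u) ∂hT = ∫ u, F u ∂hT :=
  integral_neg_eq_self F hT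

lemma integrable_bdd (F : T → ℝ) (hF : Measurable F) (C : ℝ) (hb : ∀ u, |F u| ≤ C) :
    Integrable F hT :=
  Integrable.of_bound hF.aestronglyMeasurable C
    (Filter.Eventually.of_forall (fun u => by simpa using hb u))

lemma int_re : ∫ u, (e u).re ∂hT = 0 := by
  have h := int_shift (fun u => (e u).re) ((1/2 : ℝ) : T)
  have h2 : ∀ u, (e (u + ((1/2 : ℝ) : T))).re = -(e u).re := by
    intro u; rw [e_add, e_half]; simp
  simp only [h2] at h
  rw [integral_neg] at h
  linarith

lemma int_re_sq : ∫ u, (e u).re ^ 2 ∂hT = 1 / 2 := by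
  have hm1 : Measurable (fun u : T => (e u).re) := Complex.measurable_re.comp measurable_e
  have hm2 : Measurable (fun u : T => (e u).im) := Complex.measurable_im.comp measurable_e
  have h := int_shift (fun u => (e u).re ^ 2) ((1/4 : ℝ) : T)
  have h2 : ∀ u, (e (u + ((1/4 : ℝ) : T))).re ^ 2 = (e u).im ^ 2 := by
    intro u; rw [e_add, e_quarter]; simp
  simp only [h2] at h
  have h3 : ∫ u, ((e u).re ^ 2 + (e u).im ^ 2) ∂hT = 1 := by
    simp only [re_sq_add_im_sq]; simp
  rw [integral_add] at h3
  · linarith
  · refine integrable_bdd _ (hm1.pow_const 2) 1 (fun u => ?_)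
    rw [abs_pow]; exact pow_le_one₀ (abs_nonneg _) (abs_re_le u)
  · refine integrable_bdd _ (hm2.pow_const 2) 1 (fun u => ?_)
    rw [abs_pow]; exact pow_le_one₀ (abs_nonneg _) (abs_im_le u)

/-- the masked displacement -/
noncomputable def ms (u w : T) : T := if 0 < (e u).re then w else 0

lemma measurable_ms (w : T) : Measurable (fun u => ms u w) := by
  unfold ms
  apply Measurable.ite _ measurable_const measurable_const
  exact measurableSet_lt measurable_const (Complex.measurable_re.comp measurable_e)

lemma int_pos : (1/4 : ℝ) ≤ ∫ u, (if 0 < (e u).re then (e u).re else 0) ∂hT := by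
  have hm1 : Measurable (fun u : T => (e u).re) := Complex.measurable_re.comp measurable_e
  have hset : MeasurableSet {u : T | 0 < (e u).re} := measurableSet_lt measurable_const hm1
  have hmp : Measurable (fun u : T => if 0 < (e u).re then (e u).re else 0) :=
    Measurable.ite hset hm1 measurable_const
  have hle : ∀ u : T, (e u).re ^ 2 ≤ 2 * (if 0 < (e u).re then (e u).re else 0) - (e u).re := by
    intro u
    have := abs_re_le u
    split_ifs with h
    · rw [abs_of_pos h] at this; nlinarith
    · push Not at h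
      rw [abs_of_nonpos h] at this; nlinarith
  have hi1 : Integrable (fun u : T => if 0 < (e u).re then (e u).re else 0) hT := by
    refine integrable_bdd _ hmp 1 (fun u => ?_)
    split_ifs
    · exact abs_re_le u
    · simp
  have hi2 : Integrable (fun u : T => (e u).re) hT := integrable_bdd _ hm1 1 abs_re_le
  have hi3 : Integrable (fun u : T => (e u).re ^ 2) hT := by
    refine integrable_bdd _ (hm1.pow_const 2) 1 (fun u => ?_)
    rw [abs_pow]; exact pow_le_one₀ (abs_nonneg _) (abs_re_le u)
  have := integral_mono hi3 ((hi1.const_mul 2).sub hi2) hle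
  rw [int_re_sq] at this
  simp only [Pi.sub_apply] at this
  rw [integral_sub (hi1.const_mul 2) hi2, integral_const_mul, int_re] at this
  linarith

lemma int_pos_im : ∫ u, (if 0 < (e u).re then (e u).im else 0) ∂hT = 0 := by
  have h := int_neg (fun u => if 0 < (e u).re then (e u).im else 0)
  have h2 : ∀ u : T, (if 0 < (e (-u)).re then (e (-u)).im else 0) =
      - (if 0 < (e u).re then (e u).im else 0) := by
    intro u
    rw [e_neg]
    simp only [Complex.conj_re, Complex.conj_im]
    split_ifs <;> simp
  simp only [h2] at h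
  rw [integral_neg] at h
  linarith

lemma int_y (w : T) : ∫ u, (e (u + ms u w)).re ∂hT ≤ - (1/4) * (1 - (e w).re) := by
  have hm1 : Measurable (fun u : T => (e u).re) := Complex.measurable_re.comp measurable_e
  have hm2 : Measurable (fun u : T => (e u).im) := Complex.measurable_im.comp measurable_e
  have hset : MeasurableSet {u : T | 0 < (e u).re} := measurableSet_lt measurable_const hm1
  have hmp : Measurable (fun u : T => if 0 < (e u).re then (e u).re else 0) :=
    Measurable.ite hset hm1 measurable_const
  have hmq : Measurable (fun u : T => if 0 < (e u).re then (e u).im else 0) :=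
    Measurable.ite hset hm2 measurable_const
  have hi1 : Integrable (fun u : T => if 0 < (e u).re then (e u).re else 0) hT := by
    refine integrable_bdd _ hmp 1 (fun u => ?_)
    split_ifs
    · exact abs_re_le u
    · simp
  have hi1' : Integrable (fun u : T => if 0 < (e u).re then (e u).im else 0) hT := by
    refine integrable_bdd _ hmq 1 (fun u => ?_)
    split_ifs
    · exact abs_im_le u
    · simp
  have hi2 : Integrable (fun u : T => (e u).re) hT := integrable_bdd _ hm1 1 abs_re_le
  have heq : ∀ u : T, (e (u + ms u w)).re = (e u).re +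
      (-(1 - (e w).re) * (if 0 < (e u).re then (e u).re else 0) +
        (-(e w).im) * (if 0 < (e u).re then (e u).im else 0)) := by
    intro u
    rw [e_add]
    unfold ms
    split_ifs with h
    · rw [Complex.mul_re]; ring
    · rw [e_zero]; simp
  simp only [heq]
  have h1 : Integrable (fun u : T => -(1 - (e w).re) * (if 0 < (e u).re then (e u).re else 0)) hT :=
    hi1.const_mul _
  have h2 : Integrable (fun u : T => (-(e w).im) * (if 0 < (e u).re then (e u).im else 0)) hT :=
    hi1'.const_mul _
  have h12 : Integrable (fun u : T => -(1 - (e w).re) * (if 0 < (e u).re then (e u).re else 0) +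
      (-(e w).im) * (if 0 < (e u).re then (e u).im else 0)) hT := h1.add h2
  rw [integral_add hi2 h12, integral_add h1 h2, integral_const_mul, integral_const_mul,
    int_re, int_pos_im]
  have h3 := int_pos
  have h4 : 0 ≤ 1 - (e w).re := by
    have := (abs_le.mp (abs_re_le w)).2; linarith
  nlinarith

lemma int_nsmul (n : ℕ) (hn : 0 < n) : ∫ u, (e (n • u)).re ∂hT = 0 := by
  have h := int_shift (fun u => (e (n • u)).re) ((1/(2*n) : ℝ) : T)
  have h2 : ∀ u : T, (e (n • (u + ((1/(2*n) : ℝ) : T)))).re = -(e (n • u)).re := by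
    intro u
    rw [smul_add, e_add]
    have : n • (((1/(2*n) : ℝ)) : T) = ((1/2 : ℝ) : T) := by
      rw [← AddCircle.coe_nsmul]
      congr 1
      rw [nsmul_eq_mul]
      have : (n : ℝ) ≠ 0 := by positivity
      field_simp
    rw [this, e_half]; simp
  simp only [h2] at h
  rw [integral_neg] at h
  linarith

end Pool.Agent.H302R4
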